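import Pool.Agent.Run7.h741.NT.Asy
import Pool.Agent.N916.GB.Tr

/-!
# NT: the proportion in the integers (after `Pool/Agent/N916/GB/Tr.lean` by helper916)
-/

set_option autoImplicit false

open scoped Classical
open Finset Filter

namespace Pool.Agent.Run7.h741.NT

open Pool.Agent.N916.GB (eta card_eq low)
open Pool.Agent.Y703.CQ (nr)

/-- the proportion in the integers, for a union of odd classes modulo `120` one of which is prime
to `120` -/
theorem dens (a : ℕ) (ha : a = 3 ∨ a = 7) (f : ℕ → ZMod 2) (K : Finset ℕ)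
    (hK : ∀ b ∈ K, b < 120 ∧ b % 2 = 1) (b : ℕ) (hb : b ∈ K) (hc : b.Coprime 120) :
    Tendsto (fun X : ℕ => (((Icc 1 X).filter fun n => Squarefree n ∧ n % 120 ∈ K ∧
      Gd a f n.primeFactors).card : ℝ) /
    (((Icc 1 X).filter fun n => Squarefree n ∧ n % 120 ∈ K).card : ℝ)) atTop (nhds eta) := by
  rw [Metric.tendsto_atTop]
  intro ε hε
  obtain ⟨X₀, hX₀⟩ := t_DQ a f K ha (ε / 2 * (1 / 480)) (by positivity)
  refine ⟨max X₀ 400000, fun X hX => ?_⟩
  have h1 := hX₀ X ((le_max_left _ _).trans hX)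
  have e1 := card_eq (fun b hb => (hK b hb).2) X (Gd a f)
  have e2 := card_eq (fun b hb => (hK b hb).2) X (fun _ => True)
  rw [Finset.filter_true] at e2
  simp only [and_true] at e2
  rw [← e1, ← e2] at h1
  have h2 := low (hK b hb).1 hc X ((le_max_right _ _).trans hX)
  have h3 : (((Icc 1 X).filter fun D => Squarefree D ∧ D % 120 = b).card : ℝ) ≤
      (((Icc 1 X).filter fun n => Squarefree n ∧ n % 120 ∈ K).card : ℝ) := by
    refine Nat.cast_le.2 (card_le_card fun n hn => ?_)
    rw [mem_filter] at hn ⊢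
    refine ⟨hn.1, hn.2.1, ?_⟩
    rw [hn.2.2]
    exact hb
  have hX1 : (0 : ℝ) < X := by
    have : 0 < X := by
      have := (le_max_right X₀ 400000).trans hX
      omega
    exact_mod_cast this
  set M : ℝ := (((Icc 1 X).filter fun n => Squarefree n ∧ n % 120 ∈ K).card : ℝ) with hM
  have hM0 : 0 < M := by
    have : (0 : ℝ) < 1 / 480 * X := by positivity
    linarith
  rw [Real.dist_eq, div_sub' hM0.ne', abs_div, abs_of_pos hM0, div_lt_iff₀ hM0]
  have h4 : ε / 2 * (1 / 480) * X ≤ ε / 2 * M := by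
    have := h2.trans h3
    calc ε / 2 * (1 / 480) * X = ε / 2 * (1 / 480 * X) := by ring
      _ ≤ ε / 2 * M := by gcongr
  have h5 : ε / 2 * M < ε * M := by
    apply mul_lt_mul_of_pos_right _ hM0
    linarith
  calc |(((Icc 1 X).filter fun n => Squarefree n ∧ n % 120 ∈ K ∧
      Gd a f n.primeFactors).card : ℝ) - M * eta| = |(((Icc 1 X).filter fun n => Squarefree n ∧
        n % 120 ∈ K ∧ Gd a f n.primeFactors).card : ℝ) - eta * M| := by rw [mul_comm M]
    _ ≤ ε / 2 * (1 / 480) * X := h1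
    _ < ε * M := by linarith

/-- **The proportion of the nonsingular matrices among the squarefree numbers in a union `C` of odd
classes modulo `8`.** -/
theorem dens8 (a : ℕ) (ha : a = 3 ∨ a = 7) (f : ℕ → ZMod 2) (C : Finset ℕ)
    (hC : ∀ c ∈ C, c < 8 ∧ c % 2 = 1) (hne : C.Nonempty) :
    Tendsto (fun X : ℕ => (((Icc 1 X).filter fun n => Squarefree n ∧ n % 8 ∈ C ∧
      Gd a f n.primeFactors).card : ℝ) /
    (((Icc 1 X).filter fun n => Squarefree n ∧ n % 8 ∈ C).card : ℝ)) atTop (nhds eta) := by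
  set K : Finset ℕ := (range 120).filter fun r => r % 8 ∈ C with hK
  have hm : ∀ n : ℕ, n % 120 ∈ K ↔ n % 8 ∈ C := by
    intro n
    have h1 : n % 120 % 8 = n % 8 := by omega
    rw [hK, mem_filter, mem_range, h1]
    exact ⟨fun h => h.2, fun h => ⟨Nat.mod_lt _ (by norm_num), h⟩⟩
  have hK' : ∀ b ∈ K, b < 120 ∧ b % 2 = 1 := by
    intro b hb
    rw [hK, mem_filter, mem_range] at hb
    have := (hC _ hb.2).2
    exact ⟨hb.1, by omega⟩
  obtain ⟨c, hc⟩ := hne
  have hc' := hC c hc
  obtain ⟨b, hb, hb2⟩ : ∃ b, b ∈ K ∧ b.Coprime 120 := by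
    have h1 : c = 1 ∨ c = 3 ∨ c = 5 ∨ c = 7 := by omega
    rcases h1 with rfl | rfl | rfl | rfl
    · exact ⟨1, by rw [hK, mem_filter, mem_range]; exact ⟨by norm_num, hc⟩, by norm_num⟩
    · exact ⟨11, by rw [hK, mem_filter, mem_range]; exact ⟨by norm_num, hc⟩, by norm_num⟩
    · exact ⟨13, by rw [hK, mem_filter, mem_range]; exact ⟨by norm_num, hc⟩, by norm_num⟩
    · exact ⟨7, by rw [hK, mem_filter, mem_range]; exact ⟨by norm_num, hc⟩, by norm_num⟩
  have h := dens a ha f K hK' b hb hb2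
  refine h.congr fun X => ?_
  congr 3
  · refine filter_congr fun n _ => ?_
    rw [hm]
  · refine filter_congr fun n _ => ?_
    rw [hm]

/-- **The proportion of the nonsingular matrices among all the odd squarefree numbers.** -/
theorem densOdd (a : ℕ) (ha : a = 3 ∨ a = 7) (f : ℕ → ZMod 2) :
    Tendsto (fun X : ℕ => (((Icc 1 X).filter fun n => Squarefree n ∧ n % 2 = 1 ∧
      Gd a f n.primeFactors).card : ℝ) /
    (((Icc 1 X).filter fun n => Squarefree n ∧ n % 2 = 1).card : ℝ)) atTop (nhds eta) := by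
  have h := dens8 a ha f {1, 3, 5, 7} (by decide) ⟨1, by decide⟩
  have hm : ∀ n : ℕ, n % 8 ∈ ({1, 3, 5, 7} : Finset ℕ) ↔ n % 2 = 1 := by
    intro n
    simp only [mem_insert, mem_singleton]
    omega
  refine h.congr fun X => ?_
  congr 3
  · refine filter_congr fun n _ => ?_
    rw [hm]
  · refine filter_congr fun n _ => ?_
    rw [hm]

end Pool.Agent.Run7.h741.NT
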