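import Mathlib
import Pool.Agent.N916.GB.LA3

/-!
# NT (helper741): a non-symmetric Rédei matrix over the primes of one class field, natural density

`S` is the set of the prime factors of an odd squarefree number `m`, `a = 7` or `a = 3`. The primes
`1` and `a` modulo `8` are called split. The matrix has a row and a column for every split prime of
`m`, the entry `[(q/p) = -1]` for `q ≠ p` and the diagonal entry
`∑_{q ∣ m, q ≠ p} [(q/p) = -1] + f p`, where the sum is over ALL the primes `q` of `m` and `f` is an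
arbitrary function. It is nonsingular for exactly the proportion `η = ∏_{i ≥ 1} (1 - 2^{-i})` of the
`m`. For `a = 7` and `f p = [p ≡ ±7 mod 16]` this is the matrix of the descent by `√-2` on the
curve `y² = x³ - 4 m x² + 2 m² x`.
Statements of the parts, after project GB (helper916).
-/

set_option autoImplicit false
set_option linter.unusedVariables false

open scoped Classical

namespace Pool.Agent.Run7.h741.NT

open Finset
open Pool.Agent.Y703.CX (sm la jj XX eL zz kk S_SIE)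
open Pool.Agent.Y703.CQ (nr sg)
open Pool.Agent.N973.ND (uu)
open Pool.Agent.N916.GB (Po Cl SS SA eta ps sx pt S_BIL HB S_EQ CntP S_ME8 HD S_HAL N8 S_BAD S_FE1)

/-- the split primes -/
def Sp (a p : ℕ) : Prop := p % 8 = 1 ∨ p % 8 = a

/-- a function set to zero on the primes which are not split -/
noncomputable def cu (a : ℕ) (x : ℕ → ZMod 2) (q : ℕ) : ZMod 2 := if Sp a q then x q else 0

/-- the kernel of the matrix -/
def Sol (a : ℕ) (f : ℕ → ZMod 2) (S : Finset ℕ) (x : ℕ → ZMod 2) : Prop :=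
  ∀ p ∈ S, Sp a p → ∑ q ∈ S, nr p q * (cu a x q + x p) + f p * x p = 0

/-- the matrix is nonsingular -/
def Gd (a : ℕ) (f : ℕ → ZMod 2) (S : Finset ℕ) : Prop :=
  ∀ x : ℕ → ZMod 2, Sol a f S x → ∀ p ∈ S, Sp a p → x p = 0

/-! ### Linear algebra -/

/-- the equations -/
def Ef {V : Type} [Fintype V] (f : V → ZMod 2) (M : V → V → ZMod 2) (x : V → ZMod 2) (q : V) :
    ZMod 2 := Pool.Agent.N916.GB.Ev M x q + f q * x q

/-- the nonsingular systems; `a` is the indicator of the split indices -/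
def Gw {V : Type} [Fintype V] (a f : V → ZMod 2) (M : V → V → ZMod 2) : Prop :=
  ∀ x : V → ZMod 2, (∀ q, a q = 0 → x q = 0) → (∀ q, a q = 1 → Ef f M x q = 0) → ∀ q, x q = 0

/-- NT-LA: the probability that a random completion is nonsingular. `u` is the class modulo `4`. -/
def S_LA : Prop := ∀ ε : ℝ, 0 < ε → ∃ V₀ : ℕ, ∀ (U J : Type) [Fintype U] [Fintype J] [LinearOrder J]
  (a u f : U ⊕ J → ZMod 2) (N : U ⊕ J → U ⊕ J → ZMod 2),
  (∀ i j, i ≠ j → N i j + N j i = u i * u j) →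
  (∃ k : J, a (Sum.inr k) = 0) →
  (∀ b : U → ZMod 2, (∃ v, b v ≠ 0) →
    ∃ k, a (Sum.inr k) = 1 ∧ u (Sum.inr k) = 0 ∧ ∑ v, b v * N (Sum.inr k) (Sum.inl v) ≠ 0) →
  2 * Fintype.card U + V₀ ≤
    (univ.filter fun k : J => a (Sum.inr k) = 1 ∧ u (Sum.inr k) = 1).card →
  |((univ.filter fun σ : ps J → ZMod 2 => Gw a f (pt N (sx σ))).card : ℝ) / 2 ^ (ps J).card -
    eta| ≤ ε

/-! ### Equidistribution -/

/-- NT-BOX: the count in a box; the class modulo `8` of the primes is `τ`. -/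
def S_BOX : Prop := S_EQ → S_LA → ∀ ε : ℝ, 0 < ε → ∃ V₀ : ℕ, ∀ (a : ℕ) (f : ℕ → ZMod 2) (ι : Type)
  [Fintype ι] [LinearOrder ι] (τ : ι → ℕ) (C : ι → Finset ℕ) (X : ι → ℕ) (κ : ℝ) (S₀ : Finset ℕ),
  (a = 3 ∨ a = 7) → 0 ≤ κ → (∀ i, (C i).card ≤ X i) → HB C X κ →
  (∀ v ∈ S₀, Po v) → (∀ i, ∀ p ∈ C i, Po p ∧ p ∉ S₀ ∧ p % 8 = τ i) →
  (∀ i l, i ≠ l → Disjoint (C i) (C l)) →
  (∃ i, τ i = 5) →
  2 * S₀.card + V₀ ≤ (univ.filter fun i => τ i = a).card →
  |(((Fintype.piFinset C).filter fun p => N8 S₀ (univ.image p) ∧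
        Gd a f (S₀ ∪ univ.image p)).card : ℝ) -
      eta * (((Fintype.piFinset C).filter fun p => N8 S₀ (univ.image p)).card : ℝ)| ≤
    ε * (((Fintype.piFinset C).filter fun p => N8 S₀ (univ.image p)).card : ℝ) +
    2 ^ ((2 * S₀.card + 1) * Fintype.card ι + (ps ι).card) * (κ * ∏ j, (X j : ℝ))

/-- the regular sets -/
noncomputable def RR (a : ℕ) (K : Finset ℕ) (X z H k V : ℕ) : Finset (Finset ℕ) :=
  (SS K X).filter fun S => Set.InjOn (jj H) (la z S : Set ℕ) ∧ S.card ≤ k ∧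
    (∏ p ∈ sm z S, p) * ∏ p ∈ la z S, XX H (jj H p) ≤ X ∧
    2 * (sm z S).card + V ≤ ((la z S).filter fun p => p % 8 = a).card ∧
    ∃ p ∈ la z S, p % 8 = 5

/-- NT-KEY: the sum over the boxes. -/
def S_KEY : Prop := S_BIL → S_EQ → S_LA → S_BOX → ∀ ε : ℝ, 0 < ε → ∃ (V₀ : ℕ) (C : ℝ), 1 ≤ C ∧
  ∀ (a : ℕ) (f : ℕ → ZMod 2) (K : Finset ℕ), (a = 3 ∨ a = 7) →
  ∀ (X z H k N : ℕ) (κ : ℝ), 1 ≤ X → 1 ≤ H → 1 ≤ z → 0 ≤ κ → C ≤ κ ^ 12 * z →
  (H : ℝ) * Real.log X < N →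
  |(((RR a K X z H k V₀).filter fun S => N8 (sm z S) (la z S) ∧ Gd a f S).card : ℝ) -
      eta * (((RR a K X z H k V₀).filter fun S => N8 (sm z S) (la z S)).card : ℝ)| ≤
    ε * ((RR a K X z H k V₀).card : ℝ) +
    (120 * N + 120 : ℝ) ^ k * (3 ^ (9 * k ^ 2 + 9) * κ) * (X * (1 + Real.log X))

/-- NT-FE2: few sets have few large primes `a` modulo `8` compared with the number of the small
primes. -/
def S_FE2 : Prop := S_SIE → S_ME8 → ∀ (a : ℕ), a % 2 = 1 → a < 8 → ∀ (V : ℕ) (ε : ℝ), 0 < ε →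
  ∃ X₀ : ℕ, ∀ X : ℕ, X₀ ≤ X →
  (((SA X).filter fun S => ((la (zz X) S).filter fun p => p % 8 = a).card <
    2 * (sm (zz X) S).card + V).card : ℝ) ≤ ε * X

/-- FINAL: the proportion of the good sets -/
def S_DQ : Prop := ∀ (a : ℕ) (f : ℕ → ZMod 2) (K : Finset ℕ), (a = 3 ∨ a = 7) →
  ∀ ε : ℝ, 0 < ε → ∃ X₀ : ℕ, ∀ X : ℕ, X₀ ≤ X →
  |(((SS K X).filter (Gd a f)).card : ℝ) - eta * ((SS K X).card : ℝ)| ≤ ε * X

end Pool.Agent.Run7.h741.NT
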