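import Mathlib
import Pool.Agent.Run7.h741.NT.Stm

/-!
# NT-LA, part 2: the number of the completions for which given vectors are solutions
-/

set_option autoImplicit false
set_option linter.all false

open scoped Classical

namespace Pool.Agent.Run7.h741.NT

open Finset
open Pool.Agent.N916.GB (eta ps sx pt ch ch_zero ch_one z2 ch_add ch_sum z2_add_self sum_sx Pc Tc
  four_id Tm Tm_mem Tm_inj Tm_surj sx_diag)

/-- the vectors supported on a set -/
noncomputable def su {ι : Type} [Fintype ι] (s : Finset ι) : Finset (ι → ZMod 2) :=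
  univ.filter fun t => ∀ i, i ∉ s → t i = 0

theorem mem_su {ι : Type} [Fintype ι] {s : Finset ι} {t : ι → ZMod 2} :
    t ∈ su s ↔ ∀ i, i ∉ s → t i = 0 := by
  unfold su
  rw [mem_filter]
  exact ⟨fun h => h.2, fun h => ⟨mem_univ _, h⟩⟩

/-- orthogonality on the vectors supported on a set -/
theorem orthS {ι : Type} [Fintype ι] (s : Finset ι) (b : ι → ZMod 2) :
    ∑ t ∈ su s, ch (∑ i, t i * b i) = if (∀ i ∈ s, b i = 0) then (2 : ℝ) ^ s.card else 0 := by
  have h1 : ∀ t : ι → ZMod 2, ch (∑ i, t i * b i) = ∏ i, ch (t i * b i) := fun t => ch_sum _ _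
  simp_rw [h1]
  have h0 : su s = Fintype.piFinset fun i => if i ∈ s then (univ : Finset (ZMod 2)) else {0} := by
    ext t
    rw [mem_su, Fintype.mem_piFinset]
    constructor
    · intro h i
      by_cases hi : i ∈ s
      · rw [if_pos hi]
        exact mem_univ _
      · rw [if_neg hi, mem_singleton]
        exact h i hi
    · intro h i hi
      have := h i
      rw [if_neg hi, mem_singleton] at this
      exact this
  rw [h0]
  have h2 := Finset.prod_univ_sum (fun i : ι => if i ∈ s then (univ : Finset (ZMod 2)) else {0})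
    (fun i c => ch (c * b i))
  rw [← h2]
  have h3 : ∀ i, ∑ c ∈ (if i ∈ s then (univ : Finset (ZMod 2)) else {0}), ch (c * b i) =
      if i ∈ s then (if b i = 0 then 2 else 0) else 1 := by
    intro i
    by_cases hi : i ∈ s
    · rw [if_pos hi, if_pos hi]
      have h4 : (univ : Finset (ZMod 2)) = {0, 1} := by decide
      rw [h4, sum_pair (by decide), zero_mul, one_mul, ch_zero]
      rcases z2 (b i) with h | h
      · rw [h, ch_zero, if_pos rfl]; norm_num
      · rw [h, ch_one, if_neg (by decide)]; norm_num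
    · rw [if_neg hi, if_neg hi, sum_singleton, zero_mul, ch_zero]
  simp_rw [h3]
  rw [prod_ite_mem_eq s]
  by_cases h : ∀ i ∈ s, b i = 0
  · rw [if_pos h]
    rw [prod_congr rfl fun i hi => if_pos (h i hi), prod_const]
  · rw [if_neg h]
    push Not at h
    obtain ⟨i, hi, hb⟩ := h
    exact prod_eq_zero hi (if_neg hb)

theorem card_su {ι : Type} [Fintype ι] (s : Finset ι) : ((su s).card : ℝ) = 2 ^ s.card := by
  have h := orthS s fun _ => 0
  rw [if_pos fun _ _ => rfl] at h
  rw [← h, card_eq_sum_ones, Nat.cast_sum]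
  refine sum_congr rfl fun t _ => ?_
  rw [sum_eq_zero fun i _ => mul_zero _, ch_zero, Nat.cast_one]

section four

variable {J : Type} [Fintype J] [LinearOrder J] {k : ℕ}

/-- the condition on the free symbols, for the rows in `A` -/
def Pa (A : Finset J) (y e : Fin k → J → ZMod 2) (σ : ps J → ZMod 2) : Prop :=
  ∀ i, ∀ l ∈ A, e i l + ∑ m, (y i m + y i l) * sx σ l m = 0

theorem count_four (A : Finset J) (y e : Fin k → J → ZMod 2) :
    ((univ.filter fun σ : ps J → ZMod 2 => Pa A y e σ).card : ℝ) * 2 ^ (k * A.card) =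
      2 ^ (ps J).card * ∑ T ∈ (su ((univ : Finset (Fin k)) ×ˢ A)).filter (fun T => Tc y T),
        ch (∑ il : Fin k × J, T il * e il.1 il.2) := by
  have h1 : ∀ σ : ps J → ZMod 2, (if Pa A y e σ then (1 : ℝ) else 0) * 2 ^ (k * A.card) =
      ∑ T ∈ su ((univ : Finset (Fin k)) ×ˢ A), ch (∑ il : Fin k × J, T il *
        (e il.1 il.2 + ∑ m, (y il.1 m + y il.1 il.2) * sx σ il.2 m)) := by
    intro σ
    rw [orthS ((univ : Finset (Fin k)) ×ˢ A) fun il : Fin k × J =>
      e il.1 il.2 + ∑ m, (y il.1 m + y il.1 il.2) * sx σ il.2 m, card_product, card_univ,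
      Fintype.card_fin]
    have h2 : Pa A y e σ ↔ ∀ il ∈ (univ : Finset (Fin k)) ×ˢ A,
        (e il.1 il.2 + ∑ m, (y il.1 m + y il.1 il.2) * sx σ il.2 m) = 0 :=
      ⟨fun h il hil => h il.1 il.2 (mem_product.1 hil).2,
        fun h i l hl => h (i, l) (mem_product.2 ⟨mem_univ _, hl⟩)⟩
    by_cases h : Pa A y e σ
    · rw [if_pos h, if_pos (h2.1 h), one_mul]
    · rw [if_neg h, if_neg fun h' => h (h2.2 h'), zero_mul]
  rw [card_filter, Nat.cast_sum, sum_mul]
  have h3 : ∀ σ : ps J → ZMod 2, ((if Pa A y e σ then 1 else 0 : ℕ) : ℝ) * 2 ^ (k * A.card) =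
      ∑ T ∈ su ((univ : Finset (Fin k)) ×ˢ A), ch (∑ il : Fin k × J, T il * e il.1 il.2) *
        ch (∑ f : ps J, σ f * ∑ i, (T (i, f.1.1) + T (i, f.1.2)) * (y i f.1.1 + y i f.1.2)) := by
    intro σ
    rw [Nat.cast_ite, Nat.cast_one, Nat.cast_zero, h1]
    refine sum_congr rfl fun T _ => ?_
    rw [← four_id, ← ch_add, ← sum_add_distrib]
    refine congrArg ch (sum_congr rfl fun il _ => ?_)
    ring
  rw [sum_congr rfl fun σ _ => h3 σ, sum_comm]
  rw [sum_filter, mul_sum]
  refine sum_congr rfl fun T _ => ?_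
  rw [← mul_sum, Pool.Agent.N916.GB.orth, Fintype.card_coe]
  have h4 : (∀ f : ps J, ∑ i, (T (i, f.1.1) + T (i, f.1.2)) * (y i f.1.1 + y i f.1.2) = 0) ↔
      Tc y T := by
    constructor
    · intro h a b
      rcases lt_trichotomy a b with hab | hab | hab
      · exact h ⟨(a, b), by unfold ps; rw [mem_filter]; exact ⟨mem_univ _, hab⟩⟩
      · subst hab
        refine sum_eq_zero fun i _ => ?_
        rw [z2_add_self, zero_mul]
      · have := h ⟨(b, a), by unfold ps; rw [mem_filter]; exact ⟨mem_univ _, hab⟩⟩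
        rw [← this]
        refine sum_congr rfl fun i _ => ?_
        ring
    · intro h f
      exact h f.1.1 f.1.2
  by_cases h : Tc y T
  · rw [if_pos (h4.2 h), if_pos h, mul_comm]
  · rw [if_neg fun h' => h (h4.1 h'), if_neg h, mul_zero, mul_zero]

/-- the number of the completions -/
theorem count_val (A : Finset J) (y e : Fin k → J → ZMod 2)
    (hy : ∀ c : Fin k → ZMod 2, (∀ l, ∑ i, c i * y i l = 0) → ∀ i, c i = 0)
    (hA : ∀ i l, l ∉ A → y i l = 0) (k0 : J) (hk0 : k0 ∉ A) :
    ((univ.filter fun σ : ps J → ZMod 2 => Pa A y e σ).card : ℝ) * 2 ^ (k * A.card) =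
      2 ^ (ps J).card * ∑ τ : ps (Fin k) → ZMod 2, ch (∑ f : ps (Fin k), τ f *
        ∑ l, (y f.1.1 l * e f.1.2 l + y f.1.2 l * e f.1.1 l)) := by
  rw [count_four]
  congr 1
  have hy0 : ∀ i, y i k0 = 0 := fun i => hA i k0 hk0
  symm
  refine sum_bij (fun (τ : ps (Fin k) → ZMod 2) _ => Tm y (τ, 0)) (fun τ _ => ?_)
    (fun p _ q _ h => congrArg Prod.fst (Tm_inj y hy k0 hy0 (p, 0) (q, 0) h))
      (fun T hT => ?_) (fun τ _ => ?_)
  · rw [mem_filter]
    refine ⟨mem_su.2 ?_, Tm_mem y _⟩
    rintro ⟨i, l⟩ hil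
    have hl : l ∉ A := fun h => hil (mem_product.2 ⟨mem_univ _, h⟩)
    unfold Tm
    rw [sum_eq_zero fun j _ => by rw [hA j l hl, mul_zero], zero_add]
    rfl
  · rw [mem_filter, mem_su] at hT
    obtain ⟨p, hp⟩ := Tm_surj y hy k0 hy0 T hT.2
    have hp2 : p.2 = 0 := by
      funext i
      have h1 := congrFun hp (i, k0)
      have h2 := hT.1 (i, k0) fun h => hk0 (mem_product.1 h).2
      rw [h2] at h1
      unfold Tm at h1
      rw [sum_eq_zero fun j _ => by rw [hy0 j, mul_zero], zero_add] at h1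
      exact h1
    refine ⟨p.1, mem_univ _, ?_⟩
    rw [← hp, ← hp2]
  · refine congrArg ch ?_
    have h3 : ∑ il : Fin k × J, Tm y (τ, 0) il * e il.1 il.2 =
        ∑ i, ∑ j, sx τ i j * (∑ l, y j l * e i l) := by
      rw [Fintype.sum_prod_type]
      refine sum_congr rfl fun i _ => ?_
      unfold Tm
      simp only [Pi.zero_apply, add_zero, mul_sum, sum_mul]
      rw [sum_comm]
      refine sum_congr rfl fun l _ => sum_congr rfl fun j _ => ?_
      ring
    rw [h3, sum_sx]
    refine sum_congr rfl fun f _ => ?_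
    congr 1
    rw [← sum_add_distrib]
    refine sum_congr rfl fun l _ => ?_
    ring

end four

end Pool.Agent.Run7.h741.NT
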