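import Mathlib
import Pool.Agent.Run7.h741.NT.LA2

/-!
# NT-LA, part 3: the solution spaces
-/

set_option autoImplicit false
set_option linter.all false

open scoped Classical

namespace Pool.Agent.Run7.h741.NT

open Finset
open Pool.Agent.N916.GB (eta ps sx pt ch ch_zero ch_one z2 ch_add ch_sum z2_add_self sum_sx
  Ev om Ev_add Ev_zero Ev_smul om_symm om_add z2_sq rel Ev_inl Ev_inr In card_li z2_eq_of_add
  orthZ rad Qf)

section basic

variable {V : Type} [Fintype V]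

theorem Ef_add (f : V → ZMod 2) (M : V → V → ZMod 2) (x y : V → ZMod 2) (q : V) :
    Ef f M (x + y) q = Ef f M x q + Ef f M y q := by
  unfold Ef
  rw [Ev_add, Pi.add_apply]
  ring

theorem Ef_zero (f : V → ZMod 2) (M : V → V → ZMod 2) (q : V) : Ef f M 0 q = 0 := by
  unfold Ef
  rw [Ev_zero, Pi.zero_apply, mul_zero, add_zero]

theorem Ef_smul (f : V → ZMod 2) (M : V → V → ZMod 2) (c : ZMod 2) (x : V → ZMod 2) (q : V) :
    Ef f M (c • x) q = c * Ef f M x q := by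
  unfold Ef
  rw [Ev_smul, Pi.smul_apply, smul_eq_mul]
  ring

theorem relf (u f : V → ZMod 2) (M : V → V → ZMod 2)
    (h3 : ∀ i j, i ≠ j → M i j + M j i = u i * u j) (x y : V → ZMod 2) :
    ∑ q, (x q * Ef f M y q + y q * Ef f M x q) = om u x y := by
  rw [← rel (fun _ => 1) u M (fun i j hij => by rw [one_mul, one_mul]; exact h3 i j hij) x y]
  refine sum_congr rfl fun q _ => ?_
  unfold Ef
  have h := z2_add_self (f q * x q * y q)
  linear_combination h

end basic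

section conc

variable {U J : Type} [Fintype U] [Fintype J] [LinearOrder J]

theorem Ef_inl (f : U ⊕ J → ZMod 2) (N : U ⊕ J → U ⊕ J → ZMod 2) (δ : J → J → ZMod 2)
    (x : U ⊕ J → ZMod 2) (v : U) :
    Ef f (pt N δ) x (Sum.inl v) = Ef f N x (Sum.inl v) := by
  unfold Ef
  rw [Ev_inl]

theorem Ef_inr (f : U ⊕ J → ZMod 2) (N : U ⊕ J → U ⊕ J → ZMod 2) (δ : J → J → ZMod 2)
    (x : U ⊕ J → ZMod 2) (l : J) :
    Ef f (pt N δ) x (Sum.inr l) = Ef f N x (Sum.inr l) +
      ∑ m, (x (Sum.inr m) + x (Sum.inr l)) * δ l m := by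
  unfold Ef
  rw [Ev_inr]
  ring

/-- the solutions of the rows of the small primes -/
def Zs (a f : U ⊕ J → ZMod 2) (N : U ⊕ J → U ⊕ J → ZMod 2) :
    Submodule (ZMod 2) (U ⊕ J → ZMod 2) where
  carrier := {x | (∀ q, a q = 0 → x q = 0) ∧ ∀ v, a (Sum.inl v) = 1 → Ef f N x (Sum.inl v) = 0}
  add_mem' := by
    rintro x y ⟨hx1, hx2⟩ ⟨hy1, hy2⟩
    refine ⟨fun q hq => ?_, fun v hv => ?_⟩
    · rw [Pi.add_apply, hx1 q hq, hy1 q hq, add_zero]
    · rw [Ef_add, hx2 v hv, hy2 v hv, add_zero]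
  zero_mem' := ⟨fun _ _ => rfl, fun v _ => Ef_zero _ _ _⟩
  smul_mem' := by
    rintro c x ⟨hx1, hx2⟩
    refine ⟨fun q hq => ?_, fun v hv => ?_⟩
    · rw [Pi.smul_apply, hx1 q hq, smul_zero]
    · rw [Ef_smul, hx2 v hv, mul_zero]

theorem mem_Zs {a f : U ⊕ J → ZMod 2} {N : U ⊕ J → U ⊕ J → ZMod 2} {x : U ⊕ J → ZMod 2} :
    x ∈ Zs a f N ↔ (∀ q, a q = 0 → x q = 0) ∧
      ∀ v, a (Sum.inl v) = 1 → Ef f N x (Sum.inl v) = 0 := Iff.rfl

/-- the solutions -/
def Kr (a f : U ⊕ J → ZMod 2) (M : U ⊕ J → U ⊕ J → ZMod 2) :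
    Submodule (ZMod 2) (U ⊕ J → ZMod 2) where
  carrier := {x | (∀ q, a q = 0 → x q = 0) ∧ ∀ q, a q = 1 → Ef f M x q = 0}
  add_mem' := by
    rintro x y ⟨hx1, hx2⟩ ⟨hy1, hy2⟩
    refine ⟨fun q hq => ?_, fun v hv => ?_⟩
    · rw [Pi.add_apply, hx1 q hq, hy1 q hq, add_zero]
    · rw [Ef_add, hx2 v hv, hy2 v hv, add_zero]
  zero_mem' := ⟨fun _ _ => rfl, fun v _ => Ef_zero _ _ _⟩
  smul_mem' := by
    rintro c x ⟨hx1, hx2⟩
    refine ⟨fun q hq => ?_, fun v hv => ?_⟩
    · rw [Pi.smul_apply, hx1 q hq, smul_zero]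
    · rw [Ef_smul, hx2 v hv, mul_zero]

theorem mem_Kr {a f : U ⊕ J → ZMod 2} {M : U ⊕ J → U ⊕ J → ZMod 2} {x : U ⊕ J → ZMod 2} :
    x ∈ Kr a f M ↔ (∀ q, a q = 0 → x q = 0) ∧ ∀ q, a q = 1 → Ef f M x q = 0 := Iff.rfl

theorem Gw_iff (a f : U ⊕ J → ZMod 2) (M : U ⊕ J → U ⊕ J → ZMod 2) :
    Gw a f M ↔ Module.finrank (ZMod 2) (Kr a f M) = 0 := by
  rw [Submodule.finrank_eq_zero]
  constructor
  · intro h
    rw [Submodule.eq_bot_iff]
    intro x hx
    rw [mem_Kr] at hx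
    funext p
    exact h x hx.1 hx.2 p
  · intro h x hx1 hx2 p
    have h1 : x ∈ Kr a f M := mem_Kr.2 ⟨hx1, hx2⟩
    rw [h, Submodule.mem_bot] at h1
    rw [h1]
    rfl

noncomputable instance instZ (a f : U ⊕ J → ZMod 2) (N : U ⊕ J → U ⊕ J → ZMod 2) :
    Fintype (Zs a f N) := Fintype.ofFinite _

variable {a u f : U ⊕ J → ZMod 2} {N : U ⊕ J → U ⊕ J → ZMod 2}

theorem Zs_coe_sum {k : ℕ} (c : Fin k → ZMod 2)
    (z : Fin k → Zs a f N) (q : U ⊕ J) :
    ((∑ i, c i • z i : Zs a f N) : U ⊕ J → ZMod 2) q = ∑ i, c i * (z i : U ⊕ J → ZMod 2) q := by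
  rw [AddSubmonoidClass.coe_finsetSum, Finset.sum_apply]
  refine sum_congr rfl fun i _ => ?_
  rw [Submodule.coe_smul, Pi.smul_apply, smul_eq_mul]

/-- the large coordinates of a tuple -/
def yy {k : ℕ} (z : Fin k → Zs a f N) (i : Fin k) (l : J) :
    ZMod 2 := (z i : U ⊕ J → ZMod 2) (Sum.inr l)

/-- the equations of a tuple -/
def ee {k : ℕ} (z : Fin k → Zs a f N) (i : Fin k) (l : J) :
    ZMod 2 := Ef f N (z i : U ⊕ J → ZMod 2) (Sum.inr l)

/-- the large split indices -/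
noncomputable def AJ (a : U ⊕ J → ZMod 2) : Finset J := univ.filter fun k : J => a (Sum.inr k) = 1

theorem mem_AJ {l : J} : l ∈ AJ a ↔ a (Sum.inr l) = 1 := by
  unfold AJ
  rw [mem_filter]
  exact ⟨fun h => h.2, fun h => ⟨mem_univ _, h⟩⟩

theorem not_mem_AJ {l : J} (h : l ∉ AJ a) : a (Sum.inr l) = 0 :=
  (z2 _).resolve_right fun h' => h (mem_AJ.2 h')

theorem Kr_iff {k : ℕ} (z : Fin k → Zs a f N) (σ : ps J → ZMod 2) :
    (∀ i, (z i : U ⊕ J → ZMod 2) ∈ Kr a f (pt N (sx σ))) ↔ Pa (AJ a) (yy z) (ee z) σ := by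
  unfold Pa
  constructor
  · intro h i l hl
    have h1 := (mem_Kr.1 (h i)).2 (Sum.inr l) (mem_AJ.1 hl)
    rw [Ef_inr] at h1
    exact h1
  · intro h i
    rw [mem_Kr]
    refine ⟨(mem_Zs.1 (z i).2).1, ?_⟩
    rintro (v | l) hq
    · rw [Ef_inl]
      exact (mem_Zs.1 (z i).2).2 v hq
    · rw [Ef_inr]
      exact h i l (mem_AJ.2 hq)

theorem Kr_le (a f : U ⊕ J → ZMod 2) (N : U ⊕ J → U ⊕ J → ZMod 2) (σ : ps J → ZMod 2) :
    Kr a f (pt N (sx σ)) ≤ Zs a f N := by
  intro x hx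
  rw [mem_Kr] at hx
  rw [mem_Zs]
  refine ⟨hx.1, fun v hv => ?_⟩
  rw [← Ef_inl f N (sx σ)]
  exact hx.2 _ hv

theorem card_Kr (a f : U ⊕ J → ZMod 2) (N : U ⊕ J → U ⊕ J → ZMod 2) (k : ℕ)
    (σ : ps J → ZMod 2) :
    In k (Module.finrank (ZMod 2) (Kr a f (pt N (sx σ)))) =
      ((univ.filter fun z : Fin k → Zs a f N => LinearIndependent (ZMod 2) z ∧
        Pa (AJ a) (yy z) (ee z) σ).card : ℝ) := by
  rw [← card_li k]
  have h1 : ((univ.filter fun z : Fin k → Zs a f N => LinearIndependent (ZMod 2) z ∧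
      Pa (AJ a) (yy z) (ee z) σ).card) =
      Nat.card {z : Fin k → Zs a f N // LinearIndependent (ZMod 2) z ∧
        Pa (AJ a) (yy z) (ee z) σ} := by
    rw [Nat.card_eq_fintype_card, Fintype.card_subtype]
  rw [h1]
  norm_cast
  have hle := Kr_le a f N σ
  refine Nat.card_congr ⟨fun s => ⟨fun i => ⟨(s.1 i : U ⊕ J → ZMod 2), hle (s.1 i).2⟩, ?_, ?_⟩,
    fun z => ⟨fun i => ⟨(z.1 i : U ⊕ J → ZMod 2), (Kr_iff z.1 σ).2 z.2.2 i⟩, ?_⟩, ?_, ?_⟩
  · have h2 := s.2
    rw [← LinearMap.linearIndependent_iff (Submodule.subtype _) (Submodule.ker_subtype _)] at h2 ⊢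
    exact h2
  · exact (Kr_iff _ σ).1 fun i => (s.1 i).2
  · have h2 := z.2.1
    rw [← LinearMap.linearIndependent_iff (Submodule.subtype _) (Submodule.ker_subtype _)] at h2 ⊢
    exact h2
  · intro s
    rfl
  · intro z
    rfl

/-- the good tuples -/
noncomputable def GG (a f : U ⊕ J → ZMod 2) (N : U ⊕ J → U ⊕ J → ZMod 2) (k : ℕ) :
    Finset (Fin k → Zs a f N) :=
  univ.filter fun z => ∀ c : Fin k → ZMod 2, (∀ l, ∑ i, c i * yy z i l = 0) → ∀ i, c i = 0

theorem GG_li {k : ℕ} {z : Fin k → Zs a f N}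
    (hz : z ∈ GG a f N k) : LinearIndependent (ZMod 2) z := by
  unfold GG at hz
  rw [mem_filter] at hz
  rw [Fintype.linearIndependent_iff]
  intro c hc
  refine hz.2 c fun l => ?_
  have h1 := Zs_coe_sum c z (Sum.inr l)
  rw [hc] at h1
  exact h1.symm

theorem li_GG
    (h5 : ∀ b : U → ZMod 2, (∃ v, b v ≠ 0) →
      ∃ k, a (Sum.inr k) = 1 ∧ u (Sum.inr k) = 0 ∧ ∑ v, b v * N (Sum.inr k) (Sum.inl v) ≠ 0)
    {k : ℕ} {z : Fin k → Zs a f N} (hz : LinearIndependent (ZMod 2) z) {σ : ps J → ZMod 2}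
    (hσ : Pa (AJ a) (yy z) (ee z) σ) : z ∈ GG a f N k := by
  unfold GG
  rw [mem_filter]
  refine ⟨mem_univ _, fun c hc => ?_⟩
  rw [Fintype.linearIndependent_iff] at hz
  refine hz c ?_
  set b : Zs a f N := ∑ i, c i • z i with hb
  have hal : ∀ l, (b : U ⊕ J → ZMod 2) (Sum.inr l) = 0 := by
    intro l
    rw [hb, Zs_coe_sum]
    exact hc l
  have haK : (b : U ⊕ J → ZMod 2) ∈ Kr a f (pt N (sx σ)) := by
    have h1 := (Kr_iff z σ).2 hσ
    rw [hb, AddSubmonoidClass.coe_finsetSum]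
    refine Submodule.sum_mem _ fun i _ => ?_
    rw [Submodule.coe_smul]
    exact Submodule.smul_mem _ _ (h1 i)
  have h6 : ∀ l, a (Sum.inr l) = 1 →
      ∑ v, (b : U ⊕ J → ZMod 2) (Sum.inl v) * N (Sum.inr l) (Sum.inl v) = 0 := by
    intro l hl
    have h7 := (mem_Kr.1 haK).2 (Sum.inr l) hl
    rw [Ef_inr] at h7
    have h8 : ∑ m, ((b : U ⊕ J → ZMod 2) (Sum.inr m) + (b : U ⊕ J → ZMod 2) (Sum.inr l)) *
        sx σ l m = 0 := by
      refine sum_eq_zero fun m _ => ?_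
      rw [hal, hal, add_zero, zero_mul]
    rw [h8, add_zero] at h7
    unfold Ef Ev at h7
    rw [Fintype.sum_sum_type, hal, mul_zero, add_zero] at h7
    have h9 : ∑ m, ((b : U ⊕ J → ZMod 2) (Sum.inr m) + 0) *
        N (Sum.inr l) (Sum.inr m) = 0 := by
      refine sum_eq_zero fun m _ => ?_
      rw [hal, add_zero, zero_mul]
    rw [h9, add_zero] at h7
    rw [← h7]
    refine sum_congr rfl fun v _ => ?_
    rw [add_zero]
  have h9 : ∀ v, (b : U ⊕ J → ZMod 2) (Sum.inl v) = 0 := by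
    by_contra hcon
    push Not at hcon
    obtain ⟨l, hl1, -, hl2⟩ := h5 (fun v => (b : U ⊕ J → ZMod 2) (Sum.inl v)) hcon
    exact hl2 (h6 l hl1)
  refine Subtype.ext (funext fun q => ?_)
  rcases q with v | l
  · exact h9 v
  · exact hal l

theorem form_ee (h3 : ∀ i j, i ≠ j → N i j + N j i = u i * u j) {k : ℕ}
    (z : Fin k → Zs a f N) (i j : Fin k) : ∑ l, (yy z i l * ee z j l + yy z j l * ee z i l) =
      om u (z i : U ⊕ J → ZMod 2) (z j : U ⊕ J → ZMod 2) := by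
  have h := relf u f N h3 (z i : U ⊕ J → ZMod 2) (z j : U ⊕ J → ZMod 2)
  rw [Fintype.sum_sum_type] at h
  rw [sum_eq_zero fun v _ => ?_, zero_add] at h
  · exact h
  · rcases z2 (a (Sum.inl v)) with hv | hv
    · rw [(mem_Zs.1 (z i).2).1 _ hv, (mem_Zs.1 (z j).2).1 _ hv, zero_mul, zero_mul, add_zero]
    · rw [(mem_Zs.1 (z i).2).2 v hv, (mem_Zs.1 (z j).2).2 v hv, mul_zero, mul_zero, add_zero]

/-- the split indices -/
noncomputable def AV (a : U ⊕ J → ZMod 2) : Finset (U ⊕ J) := univ.filter fun q => a q = 1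

theorem mem_AV {q : U ⊕ J} : q ∈ AV a ↔ a q = 1 := by
  unfold AV
  rw [mem_filter]
  exact ⟨fun h => h.2, fun h => ⟨mem_univ _, h⟩⟩

theorem not_mem_AV {q : U ⊕ J} : q ∉ AV a ↔ a q = 0 := by
  rw [mem_AV]
  constructor
  · exact fun h => (z2 _).resolve_right h
  · intro h h'
    rw [h] at h'
    exact absurd h' (by decide)

/-- the small split indices -/
noncomputable def AU (a : U ⊕ J → ZMod 2) : Finset U := univ.filter fun v : U => a (Sum.inl v) = 1

theorem mem_AU {v : U} : v ∈ AU a ↔ a (Sum.inl v) = 1 := by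
  unfold AU
  rw [mem_filter]
  exact ⟨fun h => h.2, fun h => ⟨mem_univ _, h⟩⟩

theorem card_AV (a : U ⊕ J → ZMod 2) : (AV a).card = (AU a).card + (AJ a).card := by
  unfold AV AU AJ
  rw [card_filter, card_filter, card_filter, Fintype.sum_sum_type]

theorem Zs_iff (x : U ⊕ J → ZMod 2) :
    x ∈ Zs a f N ↔ x ∈ su (AV a) ∧ ∀ v ∈ AU a, Ef f N x (Sum.inl v) = 0 := by
  rw [mem_Zs, mem_su]
  constructor
  · rintro ⟨h1, h2⟩
    exact ⟨fun q hq => h1 q (not_mem_AV.1 hq), fun v hv => h2 v (mem_AU.1 hv)⟩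
  · rintro ⟨h1, h2⟩
    exact ⟨fun q hq => h1 q (not_mem_AV.2 hq), fun v hv => h2 v (mem_AU.2 hv)⟩

/-- the size of the space -/
theorem card_Zs (h3 : ∀ i j, i ≠ j → N i j + N j i = u i * u j)
    (h5 : ∀ b : U → ZMod 2, (∃ v, b v ≠ 0) →
      ∃ k, a (Sum.inr k) = 1 ∧ u (Sum.inr k) = 0 ∧ ∑ v, b v * N (Sum.inr k) (Sum.inl v) ≠ 0) :
    (Fintype.card (Zs a f N) : ℝ) = 2 ^ (AJ a).card := by
  -- the linear forms
  set L : (U → ZMod 2) → U ⊕ J → ZMod 2 := fun t q =>
    ∑ v, t v * N (Sum.inl v) q +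
      Sum.elim (fun v => t v * (∑ p, N (Sum.inl v) p + f (Sum.inl v))) (fun _ => 0) q
    with hL
  have hid : ∀ (x : U ⊕ J → ZMod 2) t, ∑ v, t v * Ef f N x (Sum.inl v) = ∑ q, x q * L t q := by
    intro x t
    have h1 : ∑ q, x q * L t q = ∑ q, x q * ∑ v, t v * N (Sum.inl v) q +
        ∑ v, x (Sum.inl v) * (t v * (∑ p, N (Sum.inl v) p + f (Sum.inl v))) := by
      rw [hL]
      simp only [mul_add, sum_add_distrib]
      rw [Fintype.sum_sum_type (fun q => x q * Sum.elim (fun v => t v * ∑ p, N (Sum.inl v) p +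
        t v * f (Sum.inl v)) (fun _ => 0) q)]
      simp only [Sum.elim_inr, Sum.elim_inl, mul_zero, sum_const_zero, add_zero, mul_add,
        sum_add_distrib]
    rw [h1]
    have h2 : ∑ q, x q * ∑ v, t v * N (Sum.inl v) q =
        ∑ v, ∑ q, x q * (t v * N (Sum.inl v) q) := by
      simp only [mul_sum]
      rw [sum_comm]
    rw [h2, ← sum_add_distrib]
    refine sum_congr rfl fun v _ => ?_
    unfold Ef Ev
    have h3 : ∑ q, x q * (t v * N (Sum.inl v) q) = t v * ∑ q, x q * N (Sum.inl v) q := by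
      rw [mul_sum]
      exact sum_congr rfl fun q _ => by ring
    have h4 : ∑ p, (x p + x (Sum.inl v)) * N (Sum.inl v) p =
        ∑ q, x q * N (Sum.inl v) q + x (Sum.inl v) * ∑ p, N (Sum.inl v) p := by
      rw [mul_sum, ← sum_add_distrib]
      exact sum_congr rfl fun q _ => by ring
    rw [h3, h4]
    ring
  have hL0 : ∀ t ∈ su (AU a), (∀ q ∈ AV a, L t q = 0) ↔ t = 0 := by
    intro t ht
    constructor
    · intro h
      by_contra hcon
      have h6 : ∃ v, t v ≠ 0 := by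
        by_contra h7
        push Not at h7
        exact hcon (funext h7)
      obtain ⟨k, hk1, hk2, hk3⟩ := h5 t h6
      refine hk3 ?_
      have h8 := h (Sum.inr k) (mem_AV.2 hk1)
      rw [hL] at h8
      simp only [Sum.elim_inr, add_zero] at h8
      rw [← h8]
      refine sum_congr rfl fun v _ => ?_
      have h9 := h3 (Sum.inr k) (Sum.inl v) (by simp)
      rw [hk2, zero_mul] at h9
      rw [z2_eq_of_add h9]
    · intro h q _
      subst h
      rw [hL]
      rcases q with v | l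
      · simp
      · simp
  have hZ : (Fintype.card (Zs a f N) : ℝ) =
      ∑ x ∈ su (AV a), if x ∈ Zs a f N then (1 : ℝ) else 0 := by
    rw [← sum_filter, sum_const, nsmul_eq_mul, mul_one, Fintype.card_subtype]
    congr 2
    ext x
    rw [mem_filter, mem_filter]
    constructor
    · rintro ⟨-, h⟩
      exact ⟨((Zs_iff x).1 h).1, h⟩
    · rintro ⟨-, h⟩
      exact ⟨mem_univ _, h⟩
  have hZ2 : ∀ x ∈ su (AV a), (if x ∈ Zs a f N then (1 : ℝ) else 0) * 2 ^ (AU a).card =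
      ∑ t ∈ su (AU a), ch (∑ v, t v * Ef f N x (Sum.inl v)) := by
    intro x hx
    rw [orthS (AU a) fun v => Ef f N x (Sum.inl v)]
    have h1 : x ∈ Zs a f N ↔ ∀ v ∈ AU a, Ef f N x (Sum.inl v) = 0 := by
      rw [Zs_iff]
      exact ⟨fun h => h.2, fun h => ⟨hx, h⟩⟩
    by_cases h : x ∈ Zs a f N
    · rw [if_pos h, if_pos (h1.1 h), one_mul]
    · rw [if_neg h, if_neg fun h' => h (h1.2 h'), zero_mul]
  have hmain : (Fintype.card (Zs a f N) : ℝ) * 2 ^ (AU a).card =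
      2 ^ ((AU a).card + (AJ a).card) := by
    rw [hZ, sum_mul, sum_congr rfl hZ2, sum_comm]
    have h1 : ∀ t ∈ su (AU a), ∑ x ∈ su (AV a), ch (∑ v, t v * Ef f N x (Sum.inl v)) =
        if t = 0 then (2 : ℝ) ^ ((AU a).card + (AJ a).card) else 0 := by
      intro t ht
      rw [sum_congr rfl fun x _ => by rw [hid x t], orthS (AV a) (L t), card_AV]
      by_cases ht0 : t = 0
      · rw [if_pos ht0, if_pos ((hL0 t ht).2 ht0)]
      · rw [if_neg ht0, if_neg fun h => ht0 ((hL0 t ht).1 h)]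
    have h0 : (0 : U → ZMod 2) ∈ su (AU a) := mem_su.2 fun _ _ => rfl
    rw [sum_congr rfl h1, sum_ite_eq' (su (AU a)) (0 : U → ZMod 2), if_pos h0]
  have h2 : (0 : ℝ) < 2 ^ (AU a).card := by positivity
  refine mul_right_cancel₀ h2.ne' ?_
  rw [hmain]
  ring

/-- the form on the space -/
def BB (u : U ⊕ J → ZMod 2) (x y : Zs a f N) : ZMod 2 :=
  om u (x : U ⊕ J → ZMod 2) (y : U ⊕ J → ZMod 2)

theorem BB_add (u : U ⊕ J → ZMod 2) (x y z : Zs a f N) :
    BB u x (y + z) = BB u x y + BB u x z := by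
  unfold BB
  rw [Submodule.coe_add, om_add]

/-- the annihilator -/
noncomputable def Ann (a f : U ⊕ J → ZMod 2) (N : U ⊕ J → U ⊕ J → ZMod 2) :
    Finset (U ⊕ J → ZMod 2) :=
  (su (AV a)).filter fun h => ∀ b : Zs a f N, ∑ q, h q * (b : U ⊕ J → ZMod 2) q = 0

theorem card_Ann (a f : U ⊕ J → ZMod 2) (N : U ⊕ J → U ⊕ J → ZMod 2) :
    ((Ann a f N).card : ℝ) * Fintype.card (Zs a f N) = 2 ^ ((AU a).card + (AJ a).card) := by
  have h1 : ((Ann a f N).card : ℝ) * Fintype.card (Zs a f N) =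
      ∑ h ∈ su (AV a), ∑ b : Zs a f N, ch (∑ q, h q * (b : U ⊕ J → ZMod 2) q) := by
    unfold Ann
    rw [card_filter, Nat.cast_sum, sum_mul]
    refine sum_congr rfl fun h _ => ?_
    rw [orthZ (fun b : Zs a f N => ∑ q, h q * (b : U ⊕ J → ZMod 2) q)]
    · split_ifs
      · rw [Nat.cast_one, one_mul]
      · rw [Nat.cast_zero, zero_mul]
    · intro a b
      rw [← sum_add_distrib]
      refine sum_congr rfl fun q _ => ?_
      rw [Submodule.coe_add, Pi.add_apply, mul_add]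
  rw [h1, sum_comm]
  have h2 : ∀ b : Zs a f N, ∑ h ∈ su (AV a), ch (∑ q, h q * (b : U ⊕ J → ZMod 2) q) =
      if b = 0 then (2 : ℝ) ^ ((AU a).card + (AJ a).card) else 0 := by
    intro b
    rw [orthS (AV a) fun q => (b : U ⊕ J → ZMod 2) q, card_AV]
    by_cases hb : b = 0
    · rw [if_pos hb, if_pos]
      intro q _
      rw [hb]
      rfl
    · rw [if_neg hb, if_neg]
      intro h
      refine hb (Subtype.ext (funext fun q => ?_))
      by_cases hq : q ∈ AV a
      · exact h q hq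
      · exact (mem_Zs.1 b.2).1 q (not_mem_AV.1 hq)
  rw [sum_congr rfl fun b _ => h2 b, sum_ite_eq' univ (0 : Zs a f N), if_pos (mem_univ _)]

/-- the large split indices of class `3` modulo `4` -/
noncomputable def A3 (a u : U ⊕ J → ZMod 2) : Finset J :=
  univ.filter fun k : J => a (Sum.inr k) = 1 ∧ u (Sum.inr k) = 1

theorem A3_sub (a u : U ⊕ J → ZMod 2) : A3 a u ⊆ AJ a := by
  intro k hk
  unfold A3 at hk
  rw [mem_filter] at hk
  exact mem_AJ.2 hk.2.1

theorem card_rad (a u f : U ⊕ J → ZMod 2) (N : U ⊕ J → U ⊕ J → ZMod 2) :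
    ((rad (BB (a := a) (f := f) (N := N) u)).card : ℝ) ≤ (Ann a f N).card *
      (2 * (2 ^ Fintype.card U * 2 ^ ((AJ a).card - (A3 a u).card))) := by
  set ff : Zs a f N → (U ⊕ J → ZMod 2) × (ZMod 2 × ((U → ZMod 2) ×
      ({l : J // l ∈ AJ a \ A3 a u} → ZMod 2))) := fun x =>
    (fun q => if a q = 1 then u q * ((x : U ⊕ J → ZMod 2) q +
        ∑ p, u p * (x : U ⊕ J → ZMod 2) p) else 0,
      (∑ p, u p * (x : U ⊕ J → ZMod 2) p, (fun v => (x : U ⊕ J → ZMod 2) (Sum.inl v),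
        fun l => (x : U ⊕ J → ZMod 2) (Sum.inr l.1)))) with hff
  have h1 : (rad (BB (a := a) (f := f) (N := N) u)).card ≤ ((Ann a f N) ×ˢ
      (univ : Finset (ZMod 2 × ((U → ZMod 2) ×
      ({l : J // l ∈ AJ a \ A3 a u} → ZMod 2))))).card := by
    refine card_le_card_of_injOn ff (fun x hx => ?_) ?_
    · rw [mem_coe, mem_product]
      refine ⟨?_, mem_univ _⟩
      unfold Ann
      rw [mem_filter]
      refine ⟨mem_su.2 fun q hq => ?_, fun b => ?_⟩
      · rw [hff]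
        simp only
        rw [if_neg]
        rw [not_mem_AV.1 hq]
        decide
      · have h2 : x ∈ rad (BB (a := a) (f := f) (N := N) u) := hx
        unfold rad at h2
        rw [mem_filter] at h2
        have h3 := h2.2 b
        unfold BB om at h3
        rw [← h3, hff]
        simp only
        rw [sum_mul, ← sum_add_distrib]
        refine sum_congr rfl fun q _ => ?_
        rcases z2 (a q) with hq | hq
        · rw [(mem_Zs.1 b.2).1 q hq]
          ring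
        · rw [if_pos hq]
          ring
    · intro x _ y _ hab
      rw [hff] at hab
      simp only [Prod.mk.injEq] at hab
      obtain ⟨h2, h3, h4, h5⟩ := hab
      refine Subtype.ext (funext fun q => ?_)
      rcases q with v | l
      · exact congrFun h4 v
      · rcases z2 (a (Sum.inr l)) with hq | hq
        · rw [(mem_Zs.1 x.2).1 _ hq, (mem_Zs.1 y.2).1 _ hq]
        · by_cases hl : u (Sum.inr l) = 1
          · have h6 := congrFun h2 (Sum.inr l)
            simp only [hl, hq, if_true, one_mul] at h6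
            rw [h3] at h6
            exact add_right_cancel h6
          · have hm : l ∈ AJ a \ A3 a u := by
              rw [mem_sdiff]
              refine ⟨mem_AJ.2 hq, fun h => ?_⟩
              unfold A3 at h
              rw [mem_filter] at h
              exact hl h.2.2
            exact congrFun h5 ⟨l, hm⟩
  have h2 : ((rad (BB (a := a) (f := f) (N := N) u)).card : ℝ) ≤ _ := Nat.cast_le.2 h1
  refine h2.trans (le_of_eq ?_)
  rw [card_product, Nat.cast_mul]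
  congr 1
  rw [card_univ, Fintype.card_prod, Fintype.card_prod, Fintype.card_fun, Fintype.card_fun,
    ZMod.card, Fintype.card_coe, card_sdiff_of_subset (A3_sub a u)]
  push_cast
  rfl

/-- the vectors supported on the small primes -/
noncomputable def SU (a f : U ⊕ J → ZMod 2) (N : U ⊕ J → U ⊕ J → ZMod 2) : Finset (Zs a f N) :=
  univ.filter fun x => ∀ l, (x : U ⊕ J → ZMod 2) (Sum.inr l) = 0

theorem card_SU (a f : U ⊕ J → ZMod 2) (N : U ⊕ J → U ⊕ J → ZMod 2) :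
    ((SU a f N).card : ℝ) ≤ 2 ^ Fintype.card U := by
  have h1 : (SU a f N).card ≤ (univ : Finset (U → ZMod 2)).card := by
    refine card_le_card_of_injOn (fun x v => (x : U ⊕ J → ZMod 2) (Sum.inl v))
      (fun x _ => mem_coe.2 (mem_univ _)) ?_
    intro x hx b hb hab
    have ha' : x ∈ SU a f N := hx
    have hb' : b ∈ SU a f N := hb
    unfold SU at ha' hb'
    rw [mem_filter] at ha' hb'
    refine Subtype.ext (funext fun q => ?_)
    rcases q with v | l
    · exact congrFun hab v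
    · rw [ha'.2, hb'.2]
  rw [card_univ, Fintype.card_fun, ZMod.card] at h1
  exact_mod_cast h1

end conc

end Pool.Agent.Run7.h741.NT
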