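import Mathlib
import Pool.Agent.Run7.h741.NT.LA3

/-!
# NT-LA: the probability that a random completion is nonsingular
-/

set_option autoImplicit false
set_option linter.all false

open scoped Classical

namespace Pool.Agent.Run7.h741.NT

open Finset Filter
open Pool.Agent.N916.GB (eta ps sx pt ch ch_zero ch_one z2 ch_add ch_sum z2_add_self sum_sx
  om In rad Qf mom mm mm_pos mm_one_le eta_sum bon_even bon_odd om_symm)

section fin

variable {U J : Type} [Fintype U] [Fintype J] [LinearOrder J]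
  {a u f : U ⊕ J → ZMod 2} {N : U ⊕ J → U ⊕ J → ZMod 2}

theorem T_val (h3 : ∀ i j, i ≠ j → N i j + N j i = u i * u j)
    (h5 : ∀ b : U → ZMod 2, (∃ v, b v ≠ 0) →
      ∃ k, a (Sum.inr k) = 1 ∧ u (Sum.inr k) = 0 ∧ ∑ v, b v * N (Sum.inr k) (Sum.inl v) ≠ 0)
    {k0 : J} (hk0 : a (Sum.inr k0) = 0) (k : ℕ) :
    (∑ σ : ps J → ZMod 2, In k (Module.finrank (ZMod 2) (Kr a f (pt N (sx σ))))) *
        2 ^ (k * (AJ a).card) =
      2 ^ (ps J).card * ∑ τ : ps (Fin k) → ZMod 2, ∑ z ∈ GG a f N k,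
        ch (Qf (BB (a := a) (f := f) (N := N) u) τ z) := by
  have h6 : ∑ σ : ps J → ZMod 2, In k (Module.finrank (ZMod 2) (Kr a f (pt N (sx σ)))) =
      ∑ z ∈ GG a f N k,
        ((univ.filter fun σ : ps J → ZMod 2 => Pa (AJ a) (yy z) (ee z) σ).card : ℝ) := by
    rw [sum_congr rfl fun σ _ => card_Kr a f N k σ]
    simp only [card_filter, Nat.cast_sum]
    rw [sum_comm]
    unfold GG
    rw [sum_filter]
    refine sum_congr rfl fun z _ => ?_
    by_cases hz : z ∈ GG a f N k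
    · have hz' := hz
      unfold GG at hz'
      rw [mem_filter] at hz'
      rw [if_pos hz'.2]
      refine sum_congr rfl fun σ _ => ?_
      have := GG_li hz
      by_cases hσ : Pa (AJ a) (yy z) (ee z) σ
      · rw [if_pos ⟨this, hσ⟩, if_pos hσ]
      · rw [if_neg fun h => hσ h.2, if_neg hσ]
    · have hz' := hz
      unfold GG at hz'
      rw [mem_filter] at hz'
      rw [if_neg fun h => hz' ⟨mem_univ _, h⟩]
      refine sum_eq_zero fun σ _ => ?_
      rw [if_neg, Nat.cast_zero]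
      rintro ⟨h1, h2⟩
      exact hz (li_GG h5 h1 h2)
  rw [h6, sum_mul]
  have h7 : ∀ z ∈ GG a f N k,
      ((univ.filter fun σ : ps J → ZMod 2 => Pa (AJ a) (yy z) (ee z) σ).card : ℝ) *
      2 ^ (k * (AJ a).card) = 2 ^ (ps J).card * ∑ τ : ps (Fin k) → ZMod 2,
        ch (Qf (BB (a := a) (f := f) (N := N) u) τ z) := by
    intro z hz
    unfold GG at hz
    rw [mem_filter] at hz
    rw [count_val (AJ a) (yy z) (ee z) hz.2
      (fun i l hl => (mem_Zs.1 (z i).2).1 _ (not_mem_AJ hl)) k0 (fun h => by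
        rw [mem_AJ, hk0] at h
        exact absurd h (by decide))]
    congr 1
    refine sum_congr rfl fun τ _ => congrArg ch ?_
    unfold Qf
    refine sum_congr rfl fun f _ => ?_
    rw [form_ee h3]
    rfl
  rw [sum_congr rfl h7, ← mul_sum, sum_comm]

theorem T_bound (h3 : ∀ i j, i ≠ j → N i j + N j i = u i * u j)
    (h5 : ∀ b : U → ZMod 2, (∃ v, b v ≠ 0) →
      ∃ k, a (Sum.inr k) = 1 ∧ u (Sum.inr k) = 0 ∧ ∑ v, b v * N (Sum.inr k) (Sum.inl v) ≠ 0)
    {k0 : J} (hk0 : a (Sum.inr k0) = 0) (k V : ℕ)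
    (hV : 2 * Fintype.card U + V ≤ (A3 a u).card) :
    |(∑ σ : ps J → ZMod 2, In k (Module.finrank (ZMod 2) (Kr a f (pt N (sx σ))))) /
        2 ^ (ps J).card - 1| * 2 ^ V ≤ 2 ^ (k ^ 2 + k + 4) := by
  set T : ℝ := (∑ σ : ps J → ZMod 2, In k (Module.finrank (ZMod 2) (Kr a f (pt N (sx σ))))) /
        2 ^ (ps J).card with hT
  set S : ℝ := ∑ τ : ps (Fin k) → ZMod 2, ∑ z ∈ GG a f N k,
    ch (Qf (BB (a := a) (f := f) (N := N) u) τ z) with hS
  set Z : ℝ := (Fintype.card (Zs a f N) : ℝ) with hZ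
  have hZ2 : Z = 2 ^ (AJ a).card := card_Zs h3 h5
  have hZ0 : 0 < Z := by
    rw [hZ2]
    positivity
  have h6 := T_val (f := f) h3 h5 hk0 k
  have hp : (0 : ℝ) < 2 ^ (ps J).card := by positivity
  have h7 : T * 2 ^ (k * (AJ a).card) = S := by
    rw [hT, div_mul_eq_mul_div, h6, mul_div_cancel_left₀ _ hp.ne']
  have h8 : (2 : ℝ) ^ (k * (AJ a).card) = Z ^ k := by
    rw [hZ2, ← pow_mul, mul_comm]
  have h9 : T * Z ^ k = S := by
    rw [h8] at h7
    exact h7
  have hZk : 0 < Z ^ k := by positivity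
  have h10 := mom (B := BB (a := a) (f := f) (N := N) u) (BB_add u) (fun a b => om_symm u _ _) k
    (SU a f N) (GG a f N k)
    (fun z hz => by
      unfold GG at hz
      rw [mem_filter] at hz
      have hz' : ¬ ∀ c : Fin k → ZMod 2, (∀ l, ∑ i, c i * yy z i l = 0) → ∀ i, c i = 0 :=
        fun h => hz ⟨mem_univ _, h⟩
      push Not at hz'
      obtain ⟨c, hc1, hc2⟩ := hz'
      refine ⟨c, hc2, ?_⟩
      unfold SU
      rw [mem_filter]
      refine ⟨mem_univ _, fun l => ?_⟩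
      rw [Zs_coe_sum]
      exact hc1 l)
  rw [← hS, ← hZ] at h10
  have h11 : |T - 1| * Z ≤ 2 ^ k ^ 2 * ((rad (BB (a := a) (f := f) (N := N) u)).card +
      2 ^ k * (SU a f N).card) := by
    have h12 : |S - Z ^ k| = |T - 1| * Z ^ k := by
      rw [← h9, ← sub_one_mul, abs_mul, abs_of_pos hZk]
    rw [h12] at h10
    refine le_of_mul_le_mul_left ?_ hZk
    calc Z ^ k * (|T - 1| * Z) = |T - 1| * Z ^ k * Z := by ring
      _ ≤ _ := h10
      _ = _ := by ring
  -- the radical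
  have h13 := card_rad a u f N
  have h14 := card_Ann a f N
  rw [← hZ] at h14
  set r : ℝ := ((rad (BB (a := a) (f := f) (N := N) u)).card : ℝ) with hr
  set A : ℝ := ((Ann a f N).card : ℝ) with hA
  set o : ℕ := (A3 a u).card with ho
  have hoJ : o ≤ (AJ a).card := card_le_card (A3_sub a u)
  have hAU : (AU a).card ≤ Fintype.card U := card_le_univ _
  have h15 : r * 2 ^ V ≤ 8 * Z := by
    refine le_of_mul_le_mul_left ?_ hZ0
    calc Z * (r * 2 ^ V) = (r * Z) * 2 ^ V := by ring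
      _ ≤ (A * (2 * (2 ^ Fintype.card U * 2 ^ ((AJ a).card - o))) * Z) * 2 ^ V := by gcongr
      _ = (A * Z) * (2 * (2 ^ Fintype.card U * 2 ^ ((AJ a).card - o))) * 2 ^ V := by ring
      _ = 2 ^ ((AU a).card + (AJ a).card + 1 + Fintype.card U + ((AJ a).card - o) + V) := by
        rw [h14]
        ring
      _ ≤ (2 : ℝ) ^ ((AJ a).card + (AJ a).card + 1) :=
        pow_le_pow_right₀ (by norm_num) (by omega)
      _ = 2 ^ (AJ a).card * 2 ^ (AJ a).card * 2 := by ring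
      _ = Z * Z * 2 := by rw [hZ2]
      _ ≤ Z * (8 * Z) := by nlinarith
  have h16 : ((SU a f N).card : ℝ) * 2 ^ V ≤ 2 * Z := by
    calc ((SU a f N).card : ℝ) * 2 ^ V ≤ 2 ^ Fintype.card U * 2 ^ V := by
          have := card_SU a f N
          gcongr
      _ = 2 ^ (Fintype.card U + V) := by ring
      _ ≤ 2 ^ (AJ a).card := pow_le_pow_right₀ (by norm_num) (by omega)
      _ = Z := by rw [← hZ2]
      _ ≤ 2 * Z := by linarith
  have hk1 : (1 : ℝ) ≤ 2 ^ k := one_le_pow₀ (by norm_num)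
  have h17 : (|T - 1| * 2 ^ V) * Z ≤ 2 ^ (k ^ 2 + k + 4) * Z := by
    calc (|T - 1| * 2 ^ V) * Z = (|T - 1| * Z) * 2 ^ V := by ring
      _ ≤ (2 ^ k ^ 2 * (r + 2 ^ k * (SU a f N).card)) * 2 ^ V := by gcongr
      _ = 2 ^ k ^ 2 * (r * 2 ^ V + 2 ^ k * ((SU a f N).card * 2 ^ V)) := by ring
      _ ≤ 2 ^ k ^ 2 * (8 * Z + 2 ^ k * (2 * Z)) := by gcongr
      _ ≤ 2 ^ k ^ 2 * (8 * Z * 2 ^ k + 2 ^ k * (8 * Z)) := by
          have : 8 * Z ≤ 8 * Z * 2 ^ k := le_mul_of_one_le_right (by linarith) hk1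
          have h18 : 2 * Z ≤ 8 * Z := by linarith
          gcongr
      _ = 2 ^ (k ^ 2 + k + 4) * Z := by ring
  exact le_of_mul_le_mul_right h17 hZ0

end fin

theorem t_LA : S_LA := by
  intro ε hε
  -- the truncation
  have hlim := eta_sum
  rw [Metric.tendsto_atTop] at hlim
  obtain ⟨K0, hK0⟩ := hlim (ε / 2) (by linarith)
  set K : ℕ := 2 * K0 with hK
  set M : ℝ := ∑ k ∈ range (K + 2), (2 : ℝ) ^ (k ^ 2 + k + 4) with hM
  have hM0 : 0 ≤ M := sum_nonneg fun k _ => by positivity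
  obtain ⟨V1, hV1⟩ := pow_unbounded_of_one_lt (M / (ε / 2)) (by norm_num : (1 : ℝ) < 2)
  refine ⟨V1, ?_⟩
  intro U J _ _ _ a u f N h3 h4 h5 hV
  obtain ⟨k0, hk0⟩ := h4
  set P : ℝ := ((univ.filter fun σ : ps J → ZMod 2 => Gw a f (pt N (sx σ))).card : ℝ) /
    2 ^ (ps J).card with hP
  have hp : (0 : ℝ) < 2 ^ (ps J).card := by positivity
  set T : ℕ → ℝ := fun k => (∑ σ : ps J → ZMod 2,
    In k (Module.finrank (ZMod 2) (Kr a f (pt N (sx σ))))) / 2 ^ (ps J).card with hT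
  have hTb : ∀ k, |T k - 1| ≤ 2 ^ (k ^ 2 + k + 4) / 2 ^ V1 := by
    intro k
    rw [le_div_iff₀ (by positivity)]
    exact T_bound h3 h5 hk0 k V1 hV
  have hPs : ((univ.filter fun σ : ps J → ZMod 2 => Gw a f (pt N (sx σ))).card : ℝ) =
      ∑ σ : ps J → ZMod 2,
        if Module.finrank (ZMod 2) (Kr a f (pt N (sx σ))) = 0 then (1 : ℝ) else 0 := by
    rw [card_filter, Nat.cast_sum]
    refine sum_congr rfl fun σ _ => ?_
    by_cases h : Gw a f (pt N (sx σ))
    · rw [if_pos h, if_pos ((Gw_iff _ _ _).1 h), Nat.cast_one]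
    · rw [if_neg h, if_neg fun h' => h ((Gw_iff _ _ _).2 h'), Nat.cast_zero]
  have hsw : ∀ n : ℕ, ∑ k ∈ range n, (-1) ^ k * T k / mm k =
      (∑ σ : ps J → ZMod 2, ∑ k ∈ range n,
        (-1) ^ k * In k (Module.finrank (ZMod 2) (Kr a f (pt N (sx σ)))) / mm k) /
        2 ^ (ps J).card := by
    intro n
    rw [sum_comm, sum_div]
    refine sum_congr rfl fun k _ => ?_
    rw [hT]
    simp only
    rw [← sum_div, ← mul_sum]
    ring
  have hup : P ≤ ∑ k ∈ range (K + 1), (-1) ^ k * T k / mm k := by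
    rw [hsw, hP, hPs]
    refine div_le_div_of_nonneg_right (sum_le_sum fun σ _ => ?_) hp.le
    exact bon_even ⟨K0, by omega⟩ _
  have hlo : ∑ k ∈ range (K + 2), (-1) ^ k * T k / mm k ≤ P := by
    rw [hsw, hP, hPs]
    refine div_le_div_of_nonneg_right (sum_le_sum fun σ _ => ?_) hp.le
    exact bon_odd (K := K + 1) ⟨K0, by omega⟩ _
  have herr : ∀ n : ℕ, n ≤ K + 2 → |∑ k ∈ range n, (-1) ^ k * T k / mm k -
      ∑ k ∈ range n, (-1 : ℝ) ^ k / mm k| ≤ ε / 2 := by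
    intro n hn
    rw [← sum_sub_distrib]
    refine (abs_sum_le_sum_abs _ _).trans ?_
    have h1 : ∀ k ∈ range n, |(-1) ^ k * T k / mm k - (-1 : ℝ) ^ k / mm k| ≤
        2 ^ (k ^ 2 + k + 4) / 2 ^ V1 := by
      intro k _
      have h2 : (-1) ^ k * T k / mm k - (-1 : ℝ) ^ k / mm k = (-1) ^ k * ((T k - 1) / mm k) := by
        ring
      rw [h2, abs_mul, abs_pow, abs_neg, abs_one, one_pow, one_mul, abs_div, abs_of_pos (mm_pos k)]
      refine (div_le_self (abs_nonneg _) (mm_one_le k)).trans (hTb k)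
    refine (sum_le_sum h1).trans ?_
    rw [← sum_div]
    have h2 : ∑ k ∈ range n, (2 : ℝ) ^ (k ^ 2 + k + 4) ≤ M := by
      rw [hM]
      refine sum_le_sum_of_subset_of_nonneg (fun k hk => ?_) fun k _ _ => by positivity
      rw [mem_range] at hk ⊢
      omega
    rw [div_le_iff₀ (by positivity)]
    refine h2.trans ?_
    rw [div_lt_iff₀ (by linarith)] at hV1
    linarith
  have h6 := hK0 (K + 1) (by omega)
  have h7 := hK0 (K + 2) (by omega)
  rw [Real.dist_eq] at h6 h7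
  have h8 := herr (K + 1) (by omega)
  have h9 := herr (K + 2) le_rfl
  rw [abs_le] at h8 h9 ⊢
  rw [abs_lt] at h6 h7
  constructor
  · linarith [h9.1, h7.1]
  · linarith [h8.2, h6.2]

end Pool.Agent.Run7.h741.NT
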