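import Pool.Agent.Run7.h741.NT.Stm
import Pool.Agent.N973.ND.BOX0
import Pool.Agent.N958.GB.BOX

/-!
# NT-BOX: the count in a box (after the file BOX of project GB by helper958)
-/

set_option autoImplicit false
set_option linter.unusedSectionVars false
set_option linter.unusedVariables false

open scoped Classical

namespace Pool.Agent.Run7.h741.NT

open Finset
open Pool.Agent.Y703.CQ (nr sg)
open Pool.Agent.N973.ND (uu nr_rec nr_self)
open Pool.Agent.N916.GB (Po eta ps sx pt S_EQ HB N8)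
open Pool.Agent.N958.GB (sgm sx_self HB_sub)

/-- the type of the labels -/
abbrev Lb (S₀ : Finset ℕ) : Type := (S₀ → ZMod 2) × (S₀ → ZMod 2) × ZMod 2

/-- the label of a prime with respect to the small primes -/
noncomputable def lb (f : ℕ → ZMod 2) (S₀ : Finset ℕ) (x : ℕ) : Lb S₀ :=
  (fun v => nr x v, fun v => nr v x, f x)

/-- the good labels -/
def LN {ι : Type} (S₀ : Finset ℕ) (τ : ι → ℕ) (β : ι → Lb S₀) : Prop :=
  ∀ (w : ℕ → ZMod 2), (∃ v ∈ S₀, w v ≠ 0) →
    ∃ i, τ i = 1 ∧ ∑ v : S₀, w v * (β i).1 v ≠ 0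

theorem uu_eq8 {n k : ℕ} (h : n % 8 = k) : uu n = if k % 4 = 3 then 1 else 0 := by
  unfold uu
  have : n % 4 = k % 4 := by omega
  rw [this]

/-- the indicator of the split primes -/
noncomputable def sp (a p : ℕ) : ZMod 2 := if Sp a p then 1 else 0

theorem sp_one {a p : ℕ} : sp a p = 1 ↔ Sp a p := by
  unfold sp
  by_cases h : Sp a p
  · rw [if_pos h]
    exact ⟨fun _ => h, fun _ => rfl⟩
  · rw [if_neg h]
    exact ⟨fun h' => absurd h' (by decide), fun h' => absurd h' h⟩

theorem sp_zero {a p : ℕ} : sp a p = 0 ↔ ¬ Sp a p := by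
  unfold sp
  by_cases h : Sp a p
  · rw [if_pos h]
    exact ⟨fun h' => absurd h' (by decide), fun h' => absurd h h'⟩
  · rw [if_neg h]
    exact ⟨fun _ => h, fun _ => rfl⟩

theorem sp_eq {a p k : ℕ} (h : p % 8 = k) : sp a p = if k = 1 ∨ k = a then 1 else 0 := by
  subst h
  unfold sp Sp
  congr

/-- the good sets from a parametrization -/
theorem Gd_iff {V : Type} [Fintype V] (a : ℕ) (f : ℕ → ZMod 2) {ρ : V → ℕ}
    (hρ : Function.Injective ρ) {S : Finset ℕ} (hS : univ.image ρ = S) :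
    Gd a f S ↔ Gw (fun i => sp a (ρ i)) (fun i => f (ρ i)) fun i j => nr (ρ i) (ρ j) := by
  have h1 : ∀ i, ρ i ∈ S := fun i => by
    rw [← hS]
    exact mem_image_of_mem _ (mem_univ _)
  have h2 : ∀ x ∈ S, ∃ i, ρ i = x := by
    intro x hx
    rw [← hS, mem_image] at hx
    obtain ⟨i, -, hi⟩ := hx
    exact ⟨i, hi⟩
  have h3 : ∀ g : ℕ → ZMod 2, ∑ p ∈ S, g p = ∑ i, g (ρ i) := by
    intro g
    rw [← hS, sum_image fun i _ j _ h => hρ h]
  unfold Gd Gw
  constructor
  · intro h x hx0 hx i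
    have h4 : ∀ i, Function.extend ρ x 0 (ρ i) = x i := fun i => hρ.extend_apply x 0 i
    by_cases hi : Sp a (ρ i)
    · have h5 := h (Function.extend ρ x 0) (by
        intro q hq hsq
        obtain ⟨j, rfl⟩ := h2 q hq
        rw [h3, h4]
        have h6 := hx j (sp_one.2 hsq)
        unfold Ef Pool.Agent.N916.GB.Ev at h6
        rw [← h6]
        congr 1
        refine sum_congr rfl fun l _ => ?_
        have h7 : cu a (Function.extend ρ x 0) (ρ l) = x l := by
          unfold cu
          by_cases hl : Sp a (ρ l)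
          · rw [if_pos hl, h4]
          · rw [if_neg hl, hx0 l (sp_zero.2 hl)]
        rw [h7, mul_comm]) (ρ i) (h1 i) hi
      rwa [h4] at h5
    · exact hx0 i (sp_zero.2 hi)
  · intro h x hx p hp hsp
    obtain ⟨i, rfl⟩ := h2 p hp
    have h5 := h (fun i => cu a x (ρ i)) (fun j hj => by
      unfold cu
      rw [if_neg (sp_zero.1 hj)]) (fun j hj => by
      have h6 := hx (ρ j) (h1 j) (sp_one.1 hj)
      rw [h3] at h6
      unfold Ef Pool.Agent.N916.GB.Ev
      have h7 : cu a x (ρ j) = x (ρ j) := by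
        unfold cu
        rw [if_pos (sp_one.1 hj)]
      rw [← h6]
      simp only [h7]
      congr 1
      refine sum_congr rfl fun l _ => ?_
      rw [mul_comm]) i
    have h7 : cu a x (ρ i) = x (ρ i) := by
      unfold cu
      rw [if_pos hsp]
    rw [← h7]
    exact h5

section
variable {ι : Type} [Fintype ι] [LinearOrder ι] {S₀ : Finset ℕ} {p : ι → ℕ} {τ : ι → ℕ}
  (f : ℕ → ZMod 2)

theorem nd_iff (hτ : ∀ i, p i % 8 = τ i) :
    N8 S₀ (univ.image p) ↔ LN S₀ τ (fun i => lb f S₀ (p i)) := by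
  have key : ∀ (w : ℕ → ZMod 2) (i : ι), ∑ v ∈ S₀, w v * nr (p i) v =
      ∑ v : S₀, w v * (lb f S₀ (p i)).1 v := by
    intro w i
    rw [← Finset.sum_coe_sort S₀]
    rfl
  unfold N8 LN
  constructor
  · intro h w hw
    obtain ⟨x, hx, hx1, hx2⟩ := h w hw
    obtain ⟨i, -, rfl⟩ := mem_image.1 hx
    exact ⟨i, by rw [← hτ i]; exact hx1, by rw [← key]; exact hx2⟩
  · intro h w hw
    obtain ⟨i, hi1, hi⟩ := h w hw
    exact ⟨p i, mem_image_of_mem _ (mem_univ _), by rw [hτ i]; exact hi1, by rw [key]; exact hi⟩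

/-- the parametrization -/
def rr (S₀ : Finset ℕ) (p : ι → ℕ) : S₀ ⊕ ι → ℕ :=
  Sum.elim (fun u => (u : ℕ)) p

theorem rr_inj (hp : Function.Injective p) (hd : ∀ i, p i ∉ S₀) :
    Function.Injective (rr S₀ p) := by
  have hd' : ∀ (u : S₀) (i : ι), (u : ℕ) ≠ p i := by
    intro u i h
    exact hd i (by rw [← h]; exact u.2)
  rintro (u | i) (v | j) h
  · exact congrArg Sum.inl (Subtype.ext h)
  · exact absurd h (hd' u j)
  · exact absurd h.symm (hd' v i)
  · exact congrArg Sum.inr (hp h)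

theorem rr_im : univ.image (rr S₀ p) = S₀ ∪ univ.image p := by
  ext x
  rw [mem_union, mem_image, mem_image]
  constructor
  · rintro ⟨u | i, -, rfl⟩
    · exact Or.inl u.2
    · exact Or.inr ⟨i, mem_univ _, rfl⟩
  · rintro (h | ⟨i, -, rfl⟩)
    · exact ⟨Sum.inl ⟨x, h⟩, mem_univ _, rfl⟩
    · exact ⟨Sum.inr i, mem_univ _, rfl⟩

/-- the matrix of a tuple -/
noncomputable def NR {V : Type} (ρ : V → ℕ) (i j : V) : ZMod 2 := nr (ρ i) (ρ j)

/-- the symmetric extension of the change of the symbols -/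
theorem sx_sgm {p p₀ : ι → ℕ} (k l : ι) (hkl : k ≠ l)
    (hs : nr (p k) (p l) + nr (p₀ k) (p₀ l) = nr (p l) (p k) + nr (p₀ l) (p₀ k)) :
    sx (sgm p + sgm p₀) k l = nr (p k) (p l) + nr (p₀ k) (p₀ l) := by
  unfold sx
  rcases lt_or_gt_of_ne hkl with h | h
  · have h1 : (k, l) ∈ ps ι := mem_filter.2 ⟨mem_univ _, h⟩
    rw [dif_pos h1]
    rfl
  · have h1 : (l, k) ∈ ps ι := mem_filter.2 ⟨mem_univ _, h⟩
    have h2 : (k, l) ∉ ps ι := fun h' => lt_asymm h (mem_filter.1 h').2
    rw [dif_neg h2, dif_pos h1, hs]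
    rfl

/-- **two tuples with the same labels** -/
theorem two_tuples {p p₀ : ι → ℕ}
    (hp : Function.Injective p) (hp₀ : Function.Injective p₀)
    (hpr : ∀ i, Po (p i)) (hpr₀ : ∀ i, Po (p₀ i))
    (hτ : ∀ i, p i % 8 = τ i) (hτ₀ : ∀ i, p₀ i % 8 = τ i)
    (hl : ∀ i, lb f S₀ (p i) = lb f S₀ (p₀ i)) :
    NR (rr S₀ p) = pt (NR (rr S₀ p₀)) (sx (sgm p + sgm p₀)) := by
  have huu : ∀ k, uu (p k) = uu (p₀ k) := by
    intro k
    rw [uu_eq8 (hτ k), uu_eq8 (hτ₀ k)]
  have hrn : ∀ k l, k ≠ l → nr (p k) (p l) + nr (p₀ k) (p₀ l) =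
      nr (p l) (p k) + nr (p₀ l) (p₀ k) := by
    intro k l hkl
    rw [nr_rec (hpr l).1 (hpr l).2 (hpr k).1 (hpr k).2 fun h => hkl (hp h).symm,
      nr_rec (hpr₀ l).1 (hpr₀ l).2 (hpr₀ k).1 (hpr₀ k).2 fun h => hkl (hp₀ h).symm, huu k, huu l]
    have : ∀ x y z : ZMod 2, x + z + (y + z) = x + y := by decide
    exact this _ _ _
  funext i j
  rcases i with u | k <;> rcases j with v | l
  · rfl
  · show nr u (p l) = nr u (p₀ l)
    exact congrFun (congrArg (fun t => t.2.1) (hl l)) u
  · show nr (p k) v = nr (p₀ k) v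
    exact congrFun (congrArg (fun t => t.1) (hl k)) v
  · show nr (p k) (p l) = nr (p₀ k) (p₀ l) + sx (sgm p + sgm p₀) k l
    by_cases hkl : k = l
    · subst hkl
      rw [nr_self, nr_self, sx_self, add_zero]
    · rw [sx_sgm k l hkl (hrn k l hkl)]
      have : ∀ x y : ZMod 2, x = y + (x + y) := by decide
      exact this _ _

end

/-- **The count in a box.** -/
theorem t_BOX : S_BOX := by
  intro hEQ hLA ε hε
  obtain ⟨V₀, hV₀⟩ := hLA ε hε
  refine ⟨V₀, ?_⟩
  intro a f ι _ _ τ C X κ S₀ ha hκ hCX hHB hS₀ hC hdis h5 hcnt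
  set R : ℝ := 2 ^ (ps ι).card * (κ * ∏ j, (X j : ℝ)) with hR
  have hR0 : 0 ≤ R := mul_nonneg (by positivity)
    (mul_nonneg hκ (Finset.prod_nonneg fun j _ => by positivity))
  -- facts on tuples
  have hinj : ∀ p ∈ Fintype.piFinset C, Function.Injective p := by
    intro p hp i j hij
    rw [Fintype.mem_piFinset] at hp
    by_contra hne
    have h1 := Finset.disjoint_left.1 (hdis i j hne) (hp i)
    rw [hij] at h1
    exact h1 (hp j)
  have hτ : ∀ p ∈ Fintype.piFinset C, ∀ i, p i % 8 = τ i := by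
    intro p hp i
    rw [Fintype.mem_piFinset] at hp
    exact (hC i _ (hp i)).2.2
  have hd : ∀ p ∈ Fintype.piFinset C, ∀ i, p i ∉ S₀ := by
    intro p hp i
    rw [Fintype.mem_piFinset] at hp
    exact (hC i _ (hp i)).2.1
  have hpr : ∀ p ∈ Fintype.piFinset C, ∀ i, Po (p i) := by
    intro p hp i
    rw [Fintype.mem_piFinset] at hp
    exact (hC i _ (hp i)).1
  -- the part with given labels
  have h1 : ∀ β : ι → Lb S₀, LN S₀ τ β →
      |(((Fintype.piFinset C).filter fun p => (fun i => lb f S₀ (p i)) = β ∧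
          Gd a f (S₀ ∪ univ.image p)).card : ℝ) -
        eta * (((Fintype.piFinset C).filter fun p => (fun i => lb f S₀ (p i)) = β).card : ℝ)| ≤
      ε * (((Fintype.piFinset C).filter fun p => (fun i => lb f S₀ (p i)) = β).card : ℝ) +
        R := by
    intro β hβ
    by_cases hemp : ((Fintype.piFinset C).filter fun p => (fun i => lb f S₀ (p i)) = β) = ∅
    · have he2 : ((Fintype.piFinset C).filter fun p => (fun i => lb f S₀ (p i)) = β ∧
          Gd a f (S₀ ∪ univ.image p)) = ∅ := by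
        rw [← Finset.filter_filter, hemp, Finset.filter_empty]
      rw [he2, hemp]
      simpa using hR0
    obtain ⟨p₀, hp₀⟩ := Finset.nonempty_iff_ne_empty.2 hemp
    rw [Finset.mem_filter] at hp₀
    obtain ⟨hp₀, hp₀β⟩ := hp₀
    set C' : ι → Finset ℕ := fun i => (C i).filter fun q => lb f S₀ q = β i with hC'
    have hpi : (Fintype.piFinset C).filter (fun p => (fun i => lb f S₀ (p i)) = β) =
        Fintype.piFinset C' := by
      ext p
      simp only [Finset.mem_filter, Fintype.mem_piFinset, hC']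
      constructor
      · rintro ⟨h2, h3⟩ i
        exact ⟨h2 i, congrFun h3 i⟩
      · intro h2
        exact ⟨fun i => (h2 i).1, funext fun i => (h2 i).2⟩
    set r₀ := rr S₀ p₀ with hr₀
    have hrp : ∀ i, Po (r₀ i) := by
      rintro (v | k)
      · exact hS₀ _ v.2
      · exact hpr p₀ hp₀ k
    have hrinj : Function.Injective r₀ := rr_inj (hinj p₀ hp₀) (hd p₀ hp₀)
    have h2 := hV₀ S₀ ι (fun i => sp a (r₀ i)) (fun i => uu (r₀ i)) (fun i => f (r₀ i)) (NR r₀)
      (fun i j hij => by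
        have hne : r₀ j ≠ r₀ i := fun h => hij (hrinj h).symm
        show nr (r₀ i) (r₀ j) + nr (r₀ j) (r₀ i) = uu (r₀ i) * uu (r₀ j)
        rw [nr_rec (hrp j).1 (hrp j).2 (hrp i).1 (hrp i).2 hne]
        have : ∀ x y z : ZMod 2, x + y * z + x = z * y := by decide
        exact this _ _ _)
      (by
        obtain ⟨i, hi⟩ := h5
        refine ⟨i, ?_⟩
        show sp a (p₀ i) = 0
        rw [sp_eq (hτ p₀ hp₀ i), hi, if_neg]
        omega)
      (by
        intro b hbs
        set w : ℕ → ZMod 2 := fun n => if h : n ∈ S₀ then b ⟨n, h⟩ else 0 with hw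
        have hw1 : ∀ v : S₀, w v = b v := fun v => by
          rw [hw]
          exact dif_pos v.2
        obtain ⟨k, hk1, hk⟩ := hβ w (by
          obtain ⟨v, hv⟩ := hbs
          exact ⟨v, v.2, by rw [hw1]; exact hv⟩)
        refine ⟨k, ?_, ?_, ?_⟩
        · show sp a (p₀ k) = 1
          rw [sp_eq (hτ p₀ hp₀ k), hk1, if_pos (Or.inl rfl)]
        · show uu (p₀ k) = 0
          rw [uu_eq8 (hτ p₀ hp₀ k), hk1]
          rfl
        · intro h0
          apply hk
          rw [← h0, ← hp₀β]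
          refine sum_congr rfl fun v _ => ?_
          rw [hw1]
          rfl)
      (by
        rw [Fintype.card_coe]
        refine hcnt.trans (card_le_card fun k hk => ?_)
        rw [mem_filter] at hk ⊢
        refine ⟨mem_univ _, ?_, ?_⟩
        · show sp a (p₀ k) = 1
          rw [sp_eq (hτ p₀ hp₀ k), if_pos (Or.inr hk.2)]
        · show uu (p₀ k) = 1
          rw [uu_eq8 (hτ p₀ hp₀ k), hk.2, if_pos]
          omega)
    set Q : (ps ι → ZMod 2) → Prop := fun σ => Gw (fun i => sp a (r₀ i)) (fun i => f (r₀ i))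
      (pt (NR r₀) (sx (σ + sgm p₀))) with hQ
    have h3 := hEQ ι C' X κ hκ
      (fun i => (Finset.card_le_card (Finset.filter_subset _ _)).trans (hCX i))
      (HB_sub hHB fun i q => lb f S₀ q = β i) Q
    have h4 : ((Fintype.piFinset C).filter fun p => (fun i => lb f S₀ (p i)) = β ∧
        Gd a f (S₀ ∪ univ.image p)) = ((Fintype.piFinset C').filter fun p =>
          Q fun e => nr (p e.1.1) (p e.1.2)) := by
      rw [← hpi, Finset.filter_filter]
      refine Finset.filter_congr fun p hp => ?_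
      refine and_congr_right fun hl => ?_
      have hlb : ∀ i, lb f S₀ (p i) = lb f S₀ (p₀ i) := fun i => by
        have a1 := congrFun hl i
        have a2 := congrFun hp₀β i
        exact a1.trans a2.symm
      rw [Gd_iff a f (rr_inj (hinj p hp) (hd p hp)) rr_im]
      have a0 := two_tuples f (hinj p hp) (hinj p₀ hp₀) (hpr p hp) (hpr p₀ hp₀)
        (hτ p hp) (hτ p₀ hp₀) hlb
      have a1 : (fun i => sp a (rr S₀ p i)) = fun i => sp a (r₀ i) := by
        funext i
        rcases i with v | k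
        · rfl
        · show sp a (p k) = sp a (p₀ k)
          rw [sp_eq (hτ p hp k), sp_eq (hτ p₀ hp₀ k)]
      have a2 : (fun i => f (rr S₀ p i)) = fun i => f (r₀ i) := by
        funext i
        rcases i with v | k
        · rfl
        · exact congrArg (fun t => t.2.2) (hlb k)
      show Gw (fun i => sp a (rr S₀ p i)) (fun i => f (rr S₀ p i)) (NR (rr S₀ p)) ↔
        Gw (fun i => sp a (r₀ i)) (fun i => f (r₀ i)) (pt (NR r₀) (sx (sgm p + sgm p₀)))
      rw [a0, a1, a2]
    have h5 : (((Fintype.piFinset C').card : ℕ) : ℝ) = ∏ j, ((C' j).card : ℝ) := by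
      rw [Fintype.card_piFinset]
      push_cast
      rfl
    rw [h4, hpi, h5]
    have hQc : (univ.filter Q).card =
        (univ.filter fun σ : ps ι → ZMod 2 => Gw (fun i => sp a (r₀ i)) (fun i => f (r₀ i))
          (pt (NR r₀) (sx σ))).card := by
      refine card_bij (fun σ _ => σ + sgm p₀) ?_ ?_ ?_
      · intro σ hσ
        rw [mem_filter] at hσ ⊢
        exact ⟨mem_univ _, hσ.2⟩
      · intro σ _ σ' _ h
        exact add_right_cancel h
      · intro σ hσ
        refine ⟨σ - sgm p₀, ?_, sub_add_cancel _ _⟩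
        rw [mem_filter] at hσ ⊢
        refine ⟨mem_univ _, ?_⟩
        simp only [hQ, sub_add_cancel]
        exact hσ.2
    have h2' : |((univ.filter Q).card : ℝ) / 2 ^ (ps ι).card - eta| ≤ ε := by
      rw [hQc]
      exact h2
    set n : ℝ := (((Fintype.piFinset C').filter fun p =>
          Q fun e => nr (p e.1.1) (p e.1.2)).card : ℝ) with hn
    set q : ℝ := ((univ.filter Q).card : ℝ) / 2 ^ (ps ι).card with hq
    set P : ℝ := ∏ j, ((C' j).card : ℝ) with hP
    have hP0 : 0 ≤ P := Finset.prod_nonneg fun j _ => by positivity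
    have h6 : |n - eta * P| ≤ |n - q * P| + |q - eta| * P := by
      have h7 : n - eta * P = (n - q * P) + (q - eta) * P := by ring
      have h8 : |(q - eta) * P| = |q - eta| * P := by rw [abs_mul, abs_of_nonneg hP0]
      rw [h7, ← h8]
      exact abs_add_le _ _
    have h7 : |q - eta| * P ≤ ε * P := mul_le_mul_of_nonneg_right h2' hP0
    have h8 : |n - q * P| ≤ R := h3
    linarith
  -- sum over the labels
  set LL := univ.filter (fun β : ι → Lb S₀ => LN S₀ τ β) with hLL
  have hfib : ∀ T : (ι → ℕ) → Prop,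
      (((Fintype.piFinset C).filter fun p => N8 S₀ (univ.image p) ∧ T p).card : ℝ) =
      ∑ β ∈ LL, (((Fintype.piFinset C).filter fun p =>
        (fun i => lb f S₀ (p i)) = β ∧ T p).card : ℝ) := by
    intro T
    rw [Finset.card_eq_sum_card_fiberwise (f := fun (p : ι → ℕ) (i : ι) => lb f S₀ (p i))
      (t := LL) (by
        intro p hp
        rw [Finset.mem_coe, Finset.mem_filter] at hp
        rw [Finset.mem_coe, hLL, Finset.mem_filter]
        exact ⟨Finset.mem_univ _, (nd_iff f (hτ p hp.1)).1 hp.2.1⟩)]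
    push_cast
    refine Finset.sum_congr rfl fun β hβ => ?_
    rw [hLL, Finset.mem_filter] at hβ
    congr 2
    ext p
    simp only [Finset.mem_filter]
    constructor
    · rintro ⟨⟨h3, h4, h4'⟩, h5⟩
      exact ⟨h3, h5, h4'⟩
    · rintro ⟨h3, h4, h5⟩
      refine ⟨⟨h3, ?_, h5⟩, h4⟩
      rw [nd_iff f (hτ p h3), h4]
      exact hβ.2
  have hf1 := hfib fun p => Gd a f (S₀ ∪ univ.image p)
  have hf2 := hfib fun _ => True
  simp only [and_true] at hf2
  rw [hf1, hf2, Finset.mul_sum, ← Finset.sum_sub_distrib]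
  refine (Finset.abs_sum_le_sum_abs _ _).trans ?_
  refine (Finset.sum_le_sum fun β hβ => h1 β (Finset.mem_filter.1 hβ).2).trans ?_
  rw [Finset.sum_add_distrib, ← Finset.mul_sum, Finset.sum_const, nsmul_eq_mul]
  have h5 : ((LL.card : ℕ) : ℝ) ≤ 2 ^ ((2 * S₀.card + 1) * Fintype.card ι) := by
    have h6 : LL.card ≤ Fintype.card (ι → Lb S₀) := Finset.card_le_univ _
    rw [Fintype.card_fun, Fintype.card_prod, Fintype.card_prod, Fintype.card_fun, ZMod.card,
      Fintype.card_coe, ← pow_succ, ← pow_add, ← pow_mul] at h6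
    have h7 : (S₀.card + (S₀.card + 1)) * Fintype.card ι =
        (2 * S₀.card + 1) * Fintype.card ι := by
      ring
    rw [h7] at h6
    exact_mod_cast h6
  have h6 := mul_le_mul_of_nonneg_right h5 hR0
  rw [pow_add, mul_assoc]
  linarith

end Pool.Agent.Run7.h741.NT
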