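import Pool.Agent.Run7.h741.NT.Stm
import Pool.Agent.N509.GB.FE2

/-!
# NT-FE2: few sets have few large primes `a` modulo `8` (after `Pool/Agent/N509/GB/FE2.lean` by
helper509)
-/

set_option autoImplicit false
set_option linter.unusedVariables false

open scoped Classical

namespace Pool.Agent.Run7.h741.NT.FE2

open Finset Filter
open Pool.Agent.Y703.CX (sm la eL zz S_SIE)
open Pool.Agent.N916.GB (Po SA S_ME8)
open Pool.Agent.Y495.CX.Few (PN euler prod_pos' le_of_mem_prod mert eL_tendsto log_small zz_ge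
  loglog_zz rpow_eq)
open Pool.Agent.R413.SQ.FEW (moment)
open Pool.Agent.N509.GB.FE2 (SA_mem part1)

/-- Mertens' theorem for a class modulo `8` -/
lemma mer (hm : S_ME8) (c : ℕ) (hc : c % 2 = 1) (hc8 : c < 8) : ∃ C : ℝ, 0 ≤ C ∧ ∀ y : ℕ, 3 ≤ y →
    ∑ p ∈ (PN y).filter (fun p => p % 8 = c), (1 : ℝ) / p ≤
      1 / 4 * Real.log (Real.log y) + C := by
  obtain ⟨C₁, h1⟩ := hm c hc
  refine ⟨|C₁|, by positivity, fun y hy => ?_⟩
  have h3 := (abs_le.1 (h1 y hy)).2
  have h5 := le_abs_self C₁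
  have h7 : ∑ p ∈ (PN y).filter (fun p => p % 8 = c), (1 : ℝ) / p ≤
      ∑ p ∈ (range (y + 1)).filter (fun p => p.Prime ∧ p % 8 = c % 8), (1 : ℝ) / p := by
    refine sum_le_sum_of_subset_of_nonneg ?_ fun p _ _ => by positivity
    intro p hp
    rw [mem_filter, mem_filter, mem_Icc] at hp
    rw [mem_filter, mem_range]
    exact ⟨by omega, hp.1.2, by rw [hp.2, Nat.mod_eq_of_lt hc8]⟩
  linarith

/-- the sets with at most `B` large primes `a` modulo `8` -/
noncomputable def LL (a X B : ℕ) : Finset (Finset ℕ) :=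
  (range (X + 1)).powerset.filter fun S => (∀ p ∈ S, Po p) ∧ ∏ p ∈ S, p ≤ X ∧
    ((la (zz X) S).filter fun p => p % 8 = a).card ≤ B

lemma mem_LL {a X B : ℕ} {S : Finset ℕ} : S ∈ LL a X B ↔ S ⊆ range (X + 1) ∧ (∀ p ∈ S, Po p) ∧
    ∏ p ∈ S, p ≤ X ∧ ((la (zz X) S).filter fun p => p % 8 = a).card ≤ B := by
  unfold LL
  rw [mem_filter, mem_powerset]

lemma LL_sub {a X B : ℕ} {S T : Finset ℕ} (hS : S ∈ LL a X B) (h : T ⊆ S) : T ∈ LL a X B := by
  rw [mem_LL] at hS ⊢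
  obtain ⟨a0, a1, a2, a3⟩ := hS
  refine ⟨h.trans a0, fun p hp => a1 p (h hp), ?_, ?_⟩
  · refine le_trans ?_ a2
    exact prod_le_prod_of_subset_of_one_le' h fun p hp _ => (a1 p hp).1.one_lt.le
  · refine (card_le_card (filter_subset_filter _ ?_)).trans a3
    unfold la
    exact filter_subset_filter _ h

/-- the weight -/
noncomputable def wt (a z p : ℕ) : ℝ := if ¬ p ≤ z ∧ p % 8 = a then Real.exp (-1) else 1

lemma wt_nonneg (a z p : ℕ) : 0 ≤ wt a z p := by
  unfold wt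
  split_ifs
  · exact (Real.exp_pos _).le
  · exact zero_le_one

lemma one_le_wt {a X B : ℕ} {S : Finset ℕ} (hS : S ∈ LL a X B) :
    1 ≤ Real.exp B * ∏ p ∈ S, wt a (zz X) p := by
  rw [mem_LL] at hS
  unfold wt
  rw [← prod_filter, prod_const, ← Real.exp_nat_mul, ← Real.exp_add]
  have h1 : (S.filter fun p => ¬ p ≤ zz X ∧ p % 8 = a).card ≤ B := by
    refine (card_le_card ?_).trans hS.2.2.2
    intro p hp
    rw [mem_filter] at hp
    unfold la
    rw [mem_filter, mem_filter]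
    exact ⟨⟨hp.1, hp.2.1⟩, hp.2.2⟩
  have h2 : ((S.filter fun p => ¬ p ≤ zz X ∧ p % 8 = a).card : ℝ) ≤ B := by exact_mod_cast h1
  apply Real.one_le_exp
  linarith

/-- the odd classes modulo `8` -/
def O8 : Finset ℕ := {1, 3, 5, 7}

/-- the weights of the classes -/
noncomputable def wc (a c : ℕ) : ℝ := if c = a then 1 / 2 else 1

lemma wc_nonneg (a c : ℕ) : 0 ≤ wc a c := by
  unfold wc
  split_ifs <;> norm_num

/-- the logarithmic density of the family -/
lemma LL_sum (a X B : ℕ) : ∑ S ∈ LL a X B, (1 : ℝ) / ((∏ p ∈ S, p : ℕ) : ℝ) ≤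
    Real.exp (B + (∑ p ∈ PN (zz X), (1 : ℝ) / p +
      ∑ c ∈ O8, wc a c * ∑ p ∈ (PN X).filter (fun p => p % 8 = c), (1 : ℝ) / p)) := by
  have h1 : ∀ S ∈ LL a X B, (1 : ℝ) / ((∏ p ∈ S, p : ℕ) : ℝ) ≤
      Real.exp B * ∏ p ∈ S, (wt a (zz X) p * (1 / p)) := by
    intro S hS
    have h2 := one_le_wt hS
    have h3 : (0 : ℝ) ≤ ∏ p ∈ S, (1 : ℝ) / p := prod_nonneg fun p _ => by positivity
    have h4 : (1 : ℝ) / ((∏ p ∈ S, p : ℕ) : ℝ) = ∏ p ∈ S, (1 : ℝ) / p := by
      rw [prod_div_distrib, prod_const_one]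
      push_cast
      rfl
    rw [h4, prod_mul_distrib]
    calc ∏ p ∈ S, (1 : ℝ) / p = 1 * ∏ p ∈ S, (1 : ℝ) / p := (one_mul _).symm
      _ ≤ (Real.exp B * ∏ p ∈ S, wt a (zz X) p) * ∏ p ∈ S, (1 : ℝ) / p :=
          mul_le_mul_of_nonneg_right h2 h3
      _ = _ := by ring
  refine (sum_le_sum h1).trans ?_
  rw [← mul_sum, Real.exp_add]
  apply mul_le_mul_of_nonneg_left _ (Real.exp_pos _).le
  have hnn : ∀ p : ℕ, 0 ≤ wt a (zz X) p * (1 / (p : ℝ)) := fun p =>
    mul_nonneg (wt_nonneg _ _ p) (by positivity)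
  have h5 : ∑ S ∈ LL a X B, ∏ p ∈ S, (wt a (zz X) p * (1 / (p : ℝ))) ≤
      ∑ S ∈ ((PN X).filter fun p => p ≠ 2).powerset, ∏ p ∈ S, (wt a (zz X) p * (1 / (p : ℝ))) := by
    refine sum_le_sum_of_subset_of_nonneg ?_ fun S _ _ => prod_nonneg fun p _ => hnn p
    intro S hS
    rw [mem_LL] at hS
    rw [mem_powerset]
    intro p hp
    have h6 := hS.2.1 p hp
    rw [mem_filter, mem_filter, mem_Icc]
    exact ⟨⟨⟨h6.1.one_lt.le, le_of_mem_prod (fun p hp => (hS.2.1 p hp).1) hS.2.2.1 hp⟩, h6.1⟩,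
      h6.2⟩
  refine h5.trans ((euler _ _ fun p _ => hnn p).trans ?_)
  apply Real.exp_le_exp.2
  have hexp : Real.exp (-1) ≤ 1 / 2 := by
    rw [Real.exp_neg]
    have : (2 : ℝ) ≤ Real.exp 1 := by
      have := Real.add_one_le_exp (1 : ℝ)
      linarith
    rw [one_div]
    exact inv_anti₀ (by norm_num) this
  have hnn2 : ∀ p : ℕ, ∀ c ∈ O8, (0 : ℝ) ≤ if p % 8 = c then wc a c * (1 / (p : ℝ)) else 0 := by
    intro p c _
    split_ifs
    · exact mul_nonneg (wc_nonneg _ _) (by positivity)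
    · exact le_refl _
  have h6 : ∀ p ∈ (PN X).filter fun p => p ≠ 2, wt a (zz X) p * (1 / (p : ℝ)) ≤
      (if p ≤ zz X then (1 : ℝ) / p else 0) +
        ∑ c ∈ O8, if p % 8 = c then wc a c * (1 / (p : ℝ)) else 0 := by
    intro p hp
    rw [mem_filter, mem_filter] at hp
    have hp0 : (0 : ℝ) ≤ 1 / p := by positivity
    have e0 : p % 8 ∈ O8 := by
      unfold O8
      rcases hp.1.2.eq_two_or_odd with h | h
      · exact absurd h hp.2
      · rw [mem_insert, mem_insert, mem_insert, mem_singleton]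
        omega
    have e1 : ∑ c ∈ O8, (if p % 8 = c then wc a c * (1 / (p : ℝ)) else 0) =
        wc a (p % 8) * (1 / (p : ℝ)) := by
      rw [sum_ite_eq, if_pos e0]
    rw [e1]
    unfold wt wc
    by_cases hpz : p ≤ zz X
    · rw [if_neg (fun h => h.1 hpz), if_pos hpz]
      have e1 : (0 : ℝ) ≤ (if p % 8 = a then 1 / 2 else 1) * (1 / (p : ℝ)) :=
        mul_nonneg (by split_ifs <;> norm_num) hp0
      linarith
    · rw [if_neg hpz]
      by_cases h : p % 8 = a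
      · rw [if_pos ⟨hpz, h⟩, if_pos h]
        have := mul_le_mul_of_nonneg_right hexp hp0
        linarith
      · rw [if_neg (fun h' => h h'.2), if_neg h]
        linarith
  refine (sum_le_sum h6).trans ?_
  have h7 : ∑ p ∈ (PN X).filter (fun p => p ≠ 2),
      ((if p ≤ zz X then (1 : ℝ) / p else 0) +
        ∑ c ∈ O8, if p % 8 = c then wc a c * (1 / (p : ℝ)) else 0) ≤
      ∑ p ∈ PN X, ((if p ≤ zz X then (1 : ℝ) / p else 0) +
        ∑ c ∈ O8, if p % 8 = c then wc a c * (1 / (p : ℝ)) else 0) := by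
    refine sum_le_sum_of_subset_of_nonneg (filter_subset _ _) fun p _ _ => ?_
    have hp0 : (0 : ℝ) ≤ 1 / p := by positivity
    have e0 : (0 : ℝ) ≤ if p ≤ zz X then (1 : ℝ) / p else 0 := by
      split_ifs
      · exact hp0
      · exact le_refl _
    exact add_nonneg e0 (sum_nonneg (hnn2 p))
  refine h7.trans ?_
  rw [sum_add_distrib, ← sum_filter, sum_comm]
  have h8 : ∑ c ∈ O8, ∑ p ∈ PN X, (if p % 8 = c then wc a c * (1 / (p : ℝ)) else 0) =
      ∑ c ∈ O8, wc a c * ∑ p ∈ (PN X).filter (fun p => p % 8 = c), (1 : ℝ) / p := by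
    refine sum_congr rfl fun c _ => ?_
    rw [← sum_filter, mul_sum]
  rw [h8]
  gcongr
  intro p hp
  rw [mem_filter, mem_filter, mem_Icc] at hp
  rw [mem_filter, mem_Icc]
  exact ⟨⟨hp.1.1.1, hp.2⟩, hp.1.2⟩

/-- sets with few large primes `a` modulo `8` -/
lemma part2 (hs : S_SIE) (hm : S_ME8) (a : ℕ) (ha : a % 2 = 1) (ha8 : a < 8) :
    ∃ C : ℝ, 0 ≤ C ∧ ∀ᶠ X : ℕ in atTop,
    ((LL a X ⌊eL X / 32⌋₊).card : ℝ) ≤ C * X * Real.exp (-(1 / 16) * eL X) := by
  obtain ⟨C, hC0, hC⟩ := mert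
  obtain ⟨C₁, hC₁0, hC₁⟩ := mer hm 1 (by norm_num) (by norm_num)
  obtain ⟨C₃, hC₃0, hC₃⟩ := mer hm 3 (by norm_num) (by norm_num)
  obtain ⟨C₅, hC₅0, hC₅⟩ := mer hm 5 (by norm_num) (by norm_num)
  obtain ⟨C₇, hC₇0, hC₇⟩ := mer hm 7 (by norm_num) (by norm_num)
  obtain ⟨C', hC'1, hC'⟩ := hs
  refine ⟨C' * Real.exp (C + (C₁ + C₃ + C₅ + C₇)), by positivity, ?_⟩
  filter_upwards [eL_tendsto.eventually (log_small 3 (1 / 32) (by norm_num)),
    eL_tendsto.eventually (eventually_ge_atTop 2), eventually_ge_atTop 3] with X h1 h2 h3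
  set l := eL X with hl
  have h4 := hC (zz X) (zz_ge h2)
  have h5 := loglog_zz h2
  have g1 := hC₁ X h3
  have g3 := hC₃ X h3
  have g5 := hC₅ X h3
  have g7 := hC₇ X h3
  rw [← hl] at h5
  change _ ≤ 1 / 4 * l + C₁ at g1
  change _ ≤ 1 / 4 * l + C₃ at g3
  change _ ≤ 1 / 4 * l + C₅ at g5
  change _ ≤ 1 / 4 * l + C₇ at g7
  have h7 := hC' X (LL a X ⌊l / 32⌋₊) (by omega)
    (fun S hS => ⟨fun p hp => ((mem_LL.1 hS).2.1 p hp).1, (mem_LL.1 hS).2.2.1⟩)
    (fun S hS T hT => LL_sub hS hT)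
  have h8 := LL_sum a X ⌊l / 32⌋₊
  have hfl : ((⌊l / 32⌋₊ : ℕ) : ℝ) ≤ l / 32 := Nat.floor_le (by linarith)
  have hlX : Real.log X = Real.exp l := by
    have := rpow_eq (X := X) h2 1
    rwa [Real.rpow_one, one_mul] at this
  rw [hlX] at h7
  have h9 : ∑ c ∈ O8, wc a c * ∑ p ∈ (PN X).filter (fun p => p % 8 = c), (1 : ℝ) / p ≤
      7 / 8 * l + (C₁ + C₃ + C₅ + C₇) := by
    have e : ∑ c ∈ O8, wc a c * ∑ p ∈ (PN X).filter (fun p => p % 8 = c), (1 : ℝ) / p =
        wc a 1 * ∑ p ∈ (PN X).filter (fun p => p % 8 = 1), (1 : ℝ) / p +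
        (wc a 3 * ∑ p ∈ (PN X).filter (fun p => p % 8 = 3), (1 : ℝ) / p +
        (wc a 5 * ∑ p ∈ (PN X).filter (fun p => p % 8 = 5), (1 : ℝ) / p +
        wc a 7 * ∑ p ∈ (PN X).filter (fun p => p % 8 = 7), (1 : ℝ) / p)) := by
      unfold O8
      rw [sum_insert (by decide), sum_insert (by decide), sum_insert (by decide), sum_singleton]
    rw [e]
    have ha' : a = 1 ∨ a = 3 ∨ a = 5 ∨ a = 7 := by omega
    rcases ha' with rfl | rfl | rfl | rfl
    · have w1 : wc 1 1 = 1 / 2 := if_pos rfl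
      have w3 : wc 1 3 = 1 := if_neg (by norm_num)
      have w5 : wc 1 5 = 1 := if_neg (by norm_num)
      have w7 : wc 1 7 = 1 := if_neg (by norm_num)
      rw [w1, w3, w5, w7]
      linarith
    · have w1 : wc 3 1 = 1 := if_neg (by norm_num)
      have w3 : wc 3 3 = 1 / 2 := if_pos rfl
      have w5 : wc 3 5 = 1 := if_neg (by norm_num)
      have w7 : wc 3 7 = 1 := if_neg (by norm_num)
      rw [w1, w3, w5, w7]
      linarith
    · have w1 : wc 5 1 = 1 := if_neg (by norm_num)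
      have w3 : wc 5 3 = 1 := if_neg (by norm_num)
      have w5 : wc 5 5 = 1 / 2 := if_pos rfl
      have w7 : wc 5 7 = 1 := if_neg (by norm_num)
      rw [w1, w3, w5, w7]
      linarith
    · have w1 : wc 7 1 = 1 := if_neg (by norm_num)
      have w3 : wc 7 3 = 1 := if_neg (by norm_num)
      have w5 : wc 7 5 = 1 := if_neg (by norm_num)
      have w7 : wc 7 7 = 1 / 2 := if_pos rfl
      rw [w1, w3, w5, w7]
      linarith
  have h12 : Real.exp (((⌊l / 32⌋₊ : ℕ) : ℝ) + (∑ p ∈ PN (zz X), (1 : ℝ) / p +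
      ∑ c ∈ O8, wc a c * ∑ p ∈ (PN X).filter (fun p => p % 8 = c), (1 : ℝ) / p)) ≤
      Real.exp (C + (C₁ + C₃ + C₅ + C₇)) * Real.exp ((15 / 16) * l) := by
    rw [← Real.exp_add]
    apply Real.exp_le_exp.2
    linarith
  have h13 : ((LL a X ⌊l / 32⌋₊).card : ℝ) * Real.exp l ≤
      C' * X * (Real.exp (C + (C₁ + C₃ + C₅ + C₇)) * Real.exp ((15 / 16) * l)) := by
    refine h7.trans ?_
    exact mul_le_mul_of_nonneg_left (h8.trans h12) (by positivity)
  have h14 : (C' * Real.exp (C + (C₁ + C₃ + C₅ + C₇)) * X * Real.exp (-(1 / 16) * l)) *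
      Real.exp l = C' * X * (Real.exp (C + (C₁ + C₃ + C₅ + C₇)) * Real.exp ((15 / 16) * l)) := by
    have : Real.exp ((15 / 16) * l) = Real.exp (-(1 / 16) * l) * Real.exp l := by
      rw [← Real.exp_add]
      congr 1
      ring
    rw [this]
    ring
  rw [← h14] at h13
  exact le_of_mul_le_mul_right h13 (Real.exp_pos _)

theorem t_FE2 : S_FE2 := by
  intro hs hm a ha ha8 V ε hε
  obtain ⟨C₁, hC₁, h1⟩ := part1
  obtain ⟨C₂, hC₂, h2⟩ := part2 hs hm a ha ha8
  set M : ℝ := C₁ + C₂ + 1 with hM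
  have hM0 : 0 < M := by positivity
  have h4 := (h1.and h2).and
    (eL_tendsto.eventually (eventually_ge_atTop (max (max 2 (160 * (V : ℝ)))
      (16 * Real.log (M / ε)))))
  rw [eventually_atTop] at h4
  obtain ⟨X₀, hX₀⟩ := h4
  refine ⟨X₀, fun X hX => ?_⟩
  obtain ⟨⟨h5, h6⟩, h8⟩ := hX₀ X hX
  have h9 : 2 ≤ eL X := (le_max_left _ _).trans ((le_max_left _ _).trans h8)
  have h10 : 160 * (V : ℝ) ≤ eL X := (le_max_right _ _).trans ((le_max_left _ _).trans h8)
  have h10' : 16 * Real.log (M / ε) ≤ eL X := (le_max_right _ _).trans h8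
  have h11 : ((SA X).filter fun S => ((la (zz X) S).filter fun p => p % 8 = a).card <
      2 * (sm (zz X) S).card + V) ⊆
      ((SA X).filter fun S => eL X / 80 < ((sm (zz X) S).card : ℝ)) ∪ LL a X ⌊eL X / 32⌋₊ := by
    intro S hS
    rw [mem_filter] at hS
    rw [mem_union, mem_filter]
    by_cases hc : eL X / 80 < ((sm (zz X) S).card : ℝ)
    · exact Or.inl ⟨hS.1, hc⟩
    · right
      rw [not_lt] at hc
      obtain ⟨a1, a2⟩ := SA_mem hS.1
      rw [mem_LL]
      refine ⟨?_, a1, a2, ?_⟩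
      · intro p hp
        rw [mem_range]
        have := le_of_mem_prod (fun p hp => (a1 p hp).1) a2 hp
        omega
      · apply Nat.le_floor
        have h12 : ((((la (zz X) S).filter fun p => p % 8 = a).card : ℕ) : ℝ) ≤
            2 * ((sm (zz X) S).card : ℝ) + V := by exact_mod_cast hS.2.le
        linarith
  have h12 : (((SA X).filter fun S => ((la (zz X) S).filter fun p => p % 8 = a).card <
      2 * (sm (zz X) S).card + V).card : ℝ) ≤
      (((SA X).filter fun S => eL X / 80 < ((sm (zz X) S).card : ℝ)).card : ℝ) +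
      ((LL a X ⌊eL X / 32⌋₊).card : ℝ) := by
    exact_mod_cast (card_le_card h11).trans (card_union_le _ _)
  have h18 : (0 : ℝ) ≤ X := Nat.cast_nonneg _
  have h13 : C₁ * X * Real.exp (-(4 / 5) * eL X) ≤ C₁ * X * Real.exp (-(1 / 16) * eL X) := by
    apply mul_le_mul_of_nonneg_left _ (by positivity)
    apply Real.exp_le_exp.2
    apply mul_le_mul_of_nonneg_right _ (by linarith)
    norm_num
  have h16 : M * Real.exp (-(1 / 16) * eL X) ≤ ε := by
    have h17 : Real.exp (-(1 / 16) * eL X) ≤ Real.exp (-Real.log (M / ε)) := by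
      apply Real.exp_le_exp.2
      linarith
    rw [Real.exp_neg, Real.exp_log (by positivity)] at h17
    calc M * Real.exp (-(1 / 16) * eL X) ≤ M * (M / ε)⁻¹ := mul_le_mul_of_nonneg_left h17 hM0.le
      _ = ε := by field_simp
  calc (((SA X).filter fun S => ((la (zz X) S).filter fun p => p % 8 = a).card <
      2 * (sm (zz X) S).card + V).card : ℝ)
      ≤ C₁ * X * Real.exp (-(1 / 16) * eL X) + C₂ * X * Real.exp (-(1 / 16) * eL X) :=
        h12.trans (add_le_add (h5.trans h13) h6)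
    _ ≤ (M * Real.exp (-(1 / 16) * eL X)) * X := by
        have h19 : (0 : ℝ) ≤ X * Real.exp (-(1 / 16) * eL X) := by positivity
        rw [hM]
        nlinarith
    _ ≤ ε * X := mul_le_mul_of_nonneg_right h16 h18

end Pool.Agent.Run7.h741.NT.FE2
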