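import Pool.Agent.Run7.h741.NT.Stm
import Pool.Agent.Run7.h741.NT.LA
import Pool.Agent.Run7.h741.NT.BOX
import Pool.Agent.Run7.h741.NT.KEY
import Pool.Agent.Run7.h741.NT.FE2
import Pool.Agent.N218.GB.Fin0
import Pool.Agent.N502.GB.CNT
import Pool.Agent.N502.GB.FE1

/-!
# NT: the final asymptotics (after `Pool/Agent/N218/GB/Asy.lean` by helper218)
-/

set_option autoImplicit false

open scoped Classical
open Finset Filter

namespace Pool.Agent.Run7.h741.NT

open Pool.Agent.N916.GB (Po Cl SS SA eta ps S_BIL HB S_EQ CntP S_ME8 S_HAL N8 S_BAD S_FE1)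
open Pool.Agent.Y703.CX (sm la jj XX eL zz kk S_SIE eL_tendsto logX_eq HH NN ev_eL one_le_exp
  HH_ge HH_le HH_pos kk_ge kk_le X_pos one_add_log lin_le kap zz_ge zz_pos kap_nonneg kap_pow kap_le)
open Pool.Agent.N218.GB.Asy (eta_mem Sml sml_of sml_add sml_eps sml_many sml_cut sml_coll sml_main
  SS_sub SA_card cmp)

/-- the sets outside the regular part -/
theorem out_sub (a : ℕ) (K : Finset ℕ) (X z H k V : ℕ) :
    SS K X \ ((RR a K X z H k V).filter fun S => N8 (sm z S) (la z S)) ⊆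
      ((((((SA X).filter fun S => k < S.card) ∪
      ((SA X).filter fun S => S.card ≤ k ∧
        X < (∏ p ∈ sm z S, p) * ∏ p ∈ la z S, XX H (jj H p))) ∪
      ((SA X).filter fun S => ¬ Set.InjOn (jj H) (la z S : Set ℕ))) ∪
      ((SA X).filter fun S => ((la z S).filter fun p => p % 8 = a).card <
        2 * (sm z S).card + V)) ∪
      ((SA X).filter fun S => S.card ≤ k ∧ ¬ N8 (sm z S) (la z S))) ∪
      ((SA X).filter fun S => ∀ p ∈ la z S, p % 8 ≠ 5 % 8) := by
  intro S hS
  rw [Finset.mem_sdiff, Finset.mem_filter] at hS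
  obtain ⟨h1', h2⟩ := hS
  have h1 := SS_sub K X h1'
  simp only [mem_union, mem_filter]
  by_contra hc
  push Not at hc
  obtain ⟨⟨⟨⟨⟨c1, c2⟩, c3⟩, c4⟩, c5⟩, c7⟩ := hc
  have d1 : S.card ≤ k := c1 h1
  have d2 := c2 h1 d1
  have d3 := c3 h1
  have d4 := c4 h1
  have d5 := c5 h1 d1
  obtain ⟨p5, hp5, hp5'⟩ := c7 h1
  apply h2
  refine ⟨?_, d5⟩
  unfold RR
  rw [mem_filter]
  exact ⟨h1', d3, d1, d2, d4, p5, hp5, by simpa using hp5'⟩

/-- **The proportion of the good sets, from the parts.** -/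
theorem t_DQ' (h1 : S_BIL) (h3 : S_EQ) (h4 : S_LA) (h5 : S_BOX) (hK : S_KEY) (hC : CntP)
    (hS : S_SIE) (hH : S_HAL) (hM : S_ME8) (hB : S_BAD) (hF1 : S_FE1) (hF2 : S_FE2) : S_DQ := by
  intro a f K ha ε hε
  obtain ⟨V, C, hC1, hkey⟩ := hK h1 h3 h4 h5 (ε / 2) (by linarith)
  have s1 := sml_many hC
  have s2 := sml_cut hC
  have s3 := sml_coll hC
  have s4 := sml_eps (hF2 hS hM a (by omega) (by omega) V)
  have s5 := sml_eps (hB hS hH hM)
  have s7 := sml_eps (hF1 hS hM 5 (by norm_num))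
  have s8 := sml_main hC1
  have stot := sml_add (sml_add (sml_add (sml_add (sml_add (sml_add s1 s2) s3) s4) s5)
    s7) s8
  have hev := stot (ε / 2) (by linarith)
  have hev2 : ∀ᶠ X : ℕ in atTop, |(((SS K X).filter (Gd a f)).card : ℝ) -
      eta * ((SS K X).card : ℝ)| ≤ ε * X := by
    filter_upwards [hev, ev_eL 1] with X hX hl
    have hl0 : 0 < eL X := by linarith
    have hXp := X_pos hl0
    have hNN : (HH X : ℝ) * Real.log X < NN X := by
      unfold NN
      push_cast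
      exact Nat.lt_floor_add_one _
    have hmain := hkey a f K ha X (zz X) (HH X) (kk X) (NN X) (kap C X) hXp (HH_pos hl0)
      (zz_pos hl) (kap_nonneg hC1 X) (kap_pow hC1 hl) hNN
    set T := (RR a K X (zz X) (HH X) (kk X) V).filter fun S => N8 (sm (zz X) S) (la (zz X) S)
      with hT
    have hTG : (RR a K X (zz X) (HH X) (kk X) V).filter
        (fun S => N8 (sm (zz X) S) (la (zz X) S) ∧ Gd a f S) = T.filter (Gd a f) := by
      rw [hT, filter_filter]
    rw [hTG] at hmain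
    have hTS : T ⊆ SS K X := (filter_subset _ _).trans (filter_subset _ _)
    have hRS : ((RR a K X (zz X) (HH X) (kk X) V).card : ℝ) ≤ X := by
      exact_mod_cast (card_le_card ((filter_subset _ _).trans (SS_sub K X))).trans (SA_card X)
    have hcmp := cmp (Gd a f) T (SS K X) hTS eta eta_mem.1 eta_mem.2
    have hout : ((SS K X \ T).card : ℝ) ≤
        ((((((SA X).filter fun S => kk X < S.card).card : ℝ) +
        (((SA X).filter fun S => S.card ≤ kk X ∧
          X < (∏ p ∈ sm (zz X) S, p) * ∏ p ∈ la (zz X) S, XX (HH X) (jj (HH X) p)).card : ℝ)) +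
        (((SA X).filter fun S => ¬ Set.InjOn (jj (HH X)) (la (zz X) S : Set ℕ)).card : ℝ)) +
        (((SA X).filter fun S => ((la (zz X) S).filter fun p => p % 8 = a).card <
          2 * (sm (zz X) S).card + V).card : ℝ) +
        (((SA X).filter fun S => S.card ≤ kk X ∧ ¬ N8 (sm (zz X) S) (la (zz X) S)).card : ℝ)) +
        (((SA X).filter fun S => ∀ p ∈ la (zz X) S, p % 8 ≠ 5 % 8).card : ℝ) := by
      have g := card_le_card (out_sub a K X (zz X) (HH X) (kk X) V)
      rw [← hT] at g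
      have g2 := (g.trans (card_union_le _ _)).trans (Nat.add_le_add_right ((card_union_le _ _).trans
        (Nat.add_le_add_right ((card_union_le _ _).trans
        (Nat.add_le_add_right ((card_union_le _ _).trans
        (Nat.add_le_add_right (card_union_le _ _) _)) _)) _)) _)
      exact_mod_cast g2
    have g1 : ε / 2 * ((RR a K X (zz X) (HH X) (kk X) V).card : ℝ) ≤ ε / 2 * X :=
      mul_le_mul_of_nonneg_left hRS (by positivity)
    linarith
  obtain ⟨X₀, h0⟩ := eventually_atTop.1 hev2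
  exact ⟨X₀, fun X hX => h0 X hX⟩

/-- **The proportion of the good sets is `η = (1 - 1/2) (1 - 1/4) (1 - 1/8) ⋯`.** -/
theorem t_DQ : S_DQ :=
  t_DQ' Pool.Agent.N19.GB.t_BIL Pool.Agent.N19.GB.t_EQ t_LA t_BOX t_KEY
    Pool.Agent.N502.GB.CNT.t_CNT Pool.Agent.Y488.CX.t_SIE Pool.Agent.N148.GB.t_HAL
    Pool.Agent.N19.GB.t_ME8 Pool.Agent.N148.GB.t_BAD Pool.Agent.N502.GB.FE1.t_FE1 FE2.t_FE2

end Pool.Agent.Run7.h741.NT
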